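import Pool.Agent.MP_9dc49b_gt.H35.ASVan

/-! The Leibniz rule and the vanishing of cup products. -/

open Set Filter Topology

namespace Pool.Agent.MP_9dc49b_gt.H35

section
variable {M : Type}

/-- Evaluation of a cochain on the first points of a sequence. -/
def sq {n : ℕ} (φ : Co M n) (x : ℕ → M) : ℚ := φ fun j => x j

/-- The face maps on the natural numbers. -/
def face (i j : ℕ) : ℕ := if j < i then j else j + 1

lemma sq_cob {n : ℕ} (φ : Co M n) (x : ℕ → M) :
    sq (cob φ) x = ∑ i ∈ Finset.range (n + 1), (-1) ^ i * sq φ fun j => x (face i j) := by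
  rw [Finset.sum_range]
  have : ∀ (i : Fin (n + 1)) (j : Fin n), ((i.succAbove j : Fin (n + 1)) : ℕ) = face i j := by
    intro i j
    unfold Fin.succAbove face
    split_ifs with h1 h2 h2
    · rfl
    · exact absurd h1 h2
    · exact absurd h2 h1
    · rfl
  simp only [sq, cob, this]

/-- The cup product. -/
def cup {p q : ℕ} (φ : Co M (p + 1)) (ψ : Co M (q + 1)) : Co M (p + q + 1) :=
  fun y => φ (fun j => y ⟨j, by omega⟩) * ψ (fun j => y ⟨p + j, by omega⟩)

lemma sq_cup {p q : ℕ} (φ : Co M (p + 1)) (ψ : Co M (q + 1)) (x : ℕ → M) :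
    sq (cup φ ψ) x = sq φ x * sq ψ fun j => x (p + j) := rfl

lemma leib {p q : ℕ} (φ : Co M (p + 1)) (ψ : Co M (q + 1)) (x : ℕ → M) :
    sq (cob (cup φ ψ)) x = sq (cob φ) x * sq ψ (fun j => x (p + 1 + j)) +
      (-1) ^ p * sq φ x * sq (cob ψ) fun j => x (p + j) := by
  have h1 : ∀ i, p < i → sq φ (fun j => x (face i j)) = sq φ x := by
    intro i hi
    unfold sq
    congr 1
    funext j
    have := j.2
    simp only [face]
    rw [if_pos (by omega)]
  have h2 : ∀ i ∈ Finset.range (p + 1), (-1) ^ i * sq (cup φ ψ) (fun j => x (face i j)) =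
      (-1) ^ i * sq φ (fun j => x (face i j)) * sq ψ (fun j => x (p + 1 + j)) := by
    intro i hi
    have := Finset.mem_range.1 hi
    rw [sq_cup, mul_assoc]
    congr 3
    funext j
    simp only [face]
    rw [if_neg (by omega)]
    congr 1
    omega
  have h3 : ∀ i ∈ Finset.range (q + 1), (-1) ^ (p + 1 + i) *
      sq (cup φ ψ) (fun j => x (face (p + 1 + i) j)) =
      (-1) ^ p * sq φ x * ((-1) ^ (i + 1) * sq ψ (fun j => x (p + face (i + 1) j))) := by
    intro i _
    rw [sq_cup, h1 _ (by omega)]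
    have : (fun j => x (face (p + 1 + i) (p + j))) = fun j => x (p + face (i + 1) j) := by
      funext j
      simp only [face]
      split_ifs
      · rfl
      · omega
      · omega
      · rfl
    rw [this]
    ring
  have h4 : (fun j => x (p + face 0 j)) = fun j => x (p + 1 + j) := by
    funext j
    simp only [face]
    rw [if_neg (by omega)]
    congr 1
    omega
  rw [sq_cob, sq_cob, sq_cob, show p + q + 1 + 1 = (p + 1) + (q + 1) by omega,
    Finset.sum_range_add, Finset.sum_congr rfl h2, Finset.sum_congr rfl h3,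
    Finset.sum_range_succ _ (p + 1), Finset.sum_range_succ' _ (q + 1), h1 _ (by omega), h4,
    ← Finset.sum_mul, ← Finset.mul_sum]
  ring

lemma ext_seq {n : ℕ} (y : Fin (n + 1) → M) :
    ∃ x : ℕ → M, (fun j : Fin (n + 1) => x j) = y ∧ ∀ j, ∃ i, x j = y i :=
  ⟨fun j => y ⟨min j n, by omega⟩, funext fun j => congrArg y (Fin.ext (by
    have := j.2
    simp only
    omega)), fun _ => ⟨_, rfl⟩⟩

variable [TopologicalSpace M]

/-- A function of sequences that is locally a coboundary. -/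
def SNull (N : ℕ) (F : (ℕ → M) → ℚ) : Prop :=
  ∃ ψ : Co M N, ∀ m : M, ∃ U ∈ 𝓝 m, ∀ x : ℕ → M, (∀ j, x j ∈ U) → F x = sq (cob ψ) x

lemma SNull.step {N q : ℕ} {F : (ℕ → M) → ℚ} (h : SNull N F) (hN : 0 < N) {c : Co M (q + 1)}
    (hc : LocZero (cob c)) : SNull (N + q) fun x => F x * sq c fun j => x (N + j) := by
  obtain ⟨p, rfl⟩ : ∃ p, N = p + 1 := ⟨N - 1, by omega⟩
  obtain ⟨ψ, hψ⟩ := h
  have : SNull (p + q + 1) fun x => F x * sq c fun j => x (p + 1 + j) := by
    refine ⟨cup ψ c, fun m => ?_⟩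
    obtain ⟨U, a1, a2⟩ := hψ m
    obtain ⟨V, b1, b2⟩ := hc m
    refine ⟨U ∩ V, inter_mem a1 b1, fun x hx => ?_⟩
    have : sq (cob c) (fun j => x (p + j)) = 0 := b2 _ fun j => (hx _).2
    beta_reduce
    rw [leib, this, a2 x fun j => (hx j).1]
    ring
  rwa [show p + q + 1 = p + 1 + q by omega] at this

lemma SNull.fin {N : ℕ} {φ : Co M (N + 1)} (h : SNull N (sq φ)) :
    ∃ ψ : Co M N, LocZero (φ - cob ψ) := by
  obtain ⟨ψ, hψ⟩ := h
  refine ⟨ψ, fun m => ?_⟩
  obtain ⟨U, a1, a2⟩ := hψ m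
  refine ⟨U, a1, fun y hy => ?_⟩
  obtain ⟨x, rfl, hx⟩ := ext_seq y
  exact sub_eq_zero.2 (a2 x fun j => let ⟨i, e⟩ := hx j; e ▸ hy i)

lemma LocZero.pull {X : Type} [TopologicalSpace X] {f : M → X} (hf : Continuous f) {n : ℕ}
    {φ : Co X n} (h : LocZero φ) : LocZero (fun y : Fin n → M => φ fun j => f (y j)) := by
  intro m
  obtain ⟨U, a1, a2⟩ := h (f m)
  exact ⟨f ⁻¹' U, hf.continuousAt a1, fun x hx => a2 _ hx⟩

lemma cup_cocycle {p q : ℕ} {φ : Co M (p + 1)} {ψ : Co M (q + 1)} (h1 : LocZero (cob φ))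
    (h2 : LocZero (cob ψ)) : LocZero (cob (cup φ ψ)) := by
  intro m
  obtain ⟨U, a1, a2⟩ := h1 m
  obtain ⟨V, b1, b2⟩ := h2 m
  refine ⟨U ∩ V, inter_mem a1 b1, fun y hy => ?_⟩
  obtain ⟨x, rfl, hx⟩ := ext_seq y
  have hx' : ∀ j, x j ∈ U ∩ V := fun j => let ⟨i, e⟩ := hx j; e ▸ hy i
  have e1 : sq (cob φ) x = 0 := a2 _ fun j => (hx' _).1
  have e2 : sq (cob ψ) (fun j => x (p + j)) = 0 := b2 _ fun j => (hx' _).2
  have := leib φ ψ x
  rw [e1, e2] at this
  simpa [sq] using this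

variable {X : Type} [TopologicalSpace X]

lemma snull_two {K : Set (X × X)} {r : ℕ} (hK : Van K r) {f g : M → X} (hf : Continuous f)
    (hg : Continuous g) (hfg : ∀ m, (f m, g m) ∈ K) {p q : ℕ} (hr : r ≤ p + q)
    {a : Co X (p + 1)} {b : Co X (q + 1)} (ha : LocZero (cob a)) (hb : LocZero (cob b)) :
    SNull (p + q) fun x => sq a (fun j => f (x j)) * sq b fun j => g (x (p + j)) := by
  have h1 : LocZero (cob (cup (fun y : Fin (p + 1) → X × X => a fun j => (y j).1)
      (fun y : Fin (q + 1) → X × X => b fun j => (y j).2))) :=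
    cup_cocycle (ha.pull continuous_fst) (hb.pull continuous_snd)
  obtain ⟨ψ, hψ⟩ := hK _ hr _ fun z _ => h1 z
  refine ⟨fun y => ψ fun j => (f (y j), g (y j)), fun m => ?_⟩
  obtain ⟨U, a1, a2⟩ := hψ _ (hfg m)
  refine ⟨(fun m => (f m, g m)) ⁻¹' U, (hf.prodMk hg).continuousAt a1, fun x hx => ?_⟩
  exact sub_eq_zero.1 (a2 (fun j => (f (x j), g (x j))) fun j => hx j)

lemma SNull.congr {N N' : ℕ} {F F' : (ℕ → M) → ℚ} (h : SNull N F) (e : N = N')
    (e' : ∀ x, F x = F' x) : SNull N' F' := by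
  obtain rfl : F = F' := funext e'
  rwa [← e]

lemma snull_all {K : Set (X × X)} {r : ℕ} (hK : Van K r) (hr0 : 0 < r) (k : ℕ) :
    ∀ (ev : Fin (k + 2) → M → X), (∀ i, Continuous (ev i)) → (∀ m, (ev 0 m, ev 1 m) ∈ K) →
      ∀ (deg : Fin (k + 2) → ℕ) (α : ∀ i, Co X (deg i + 1)), (∀ i, LocZero (cob (α i))) →
        r ≤ deg 0 + deg 1 → SNull (∑ i, deg i)
          fun x => ∏ i, sq (α i) fun j => ev i (x (∑ l ∈ Finset.Iio i, deg l + j)) := by
  induction k with
  | zero =>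
    intro ev hev hK' deg α hα hr
    have e0 : Finset.Iio (0 : Fin 2) = ∅ := by decide
    have e1 : Finset.Iio (1 : Fin 2) = {0} := by decide
    refine (snull_two hK (hev 0) (hev 1) hK' hr (hα 0) (hα 1)).congr
      (Fin.sum_univ_two _).symm fun x => ?_
    rw [Fin.prod_univ_two, e0, e1]
    simp
  | succ k ih =>
    intro ev hev hK' deg α hα hr
    have h1 := ih (fun i => ev i.castSucc) (fun i => hev _) hK' (fun i => deg i.castSucc)
      (fun i => α i.castSucc) (fun i => hα _) hr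
    have hN : 0 < ∑ i : Fin (k + 2), deg i.castSucc := by
      rw [Fin.sum_univ_succ, Fin.sum_univ_succ]
      have : r ≤ deg (0 : Fin (k + 2)).castSucc + deg (Fin.succ (0 : Fin (k + 1))).castSucc := hr
      omega
    refine (h1.step hN (c := fun y => α (Fin.last _) fun j => ev (Fin.last _) (y j))
      ((hα (Fin.last _)).pull (hev (Fin.last _)))).congr (Fin.sum_univ_castSucc _).symm fun x => ?_
    rw [Fin.prod_univ_castSucc (n := k + 2), Fin.Iio_last_eq_map, Finset.sum_map]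
    simp only [Fin.sum_Iio_castSucc]
    rfl

theorem evCup_null {K : Set (X × X)} {r : ℕ} (hK : Van K r) (hr0 : 0 < r) {k : ℕ}
    {ev : Fin (k + 2) → M → X} (hev : ∀ i, Continuous (ev i)) (h : ∀ m, (ev 0 m, ev 1 m) ∈ K)
    {deg : Fin (k + 2) → ℕ} {α : ∀ i, Co X (deg i + 1)} (hα : ∀ i, LocZero (cob (α i)))
    (hr : r ≤ deg 0 + deg 1) : ∃ ψ : Co M (∑ i, deg i), LocZero (evCup ev deg α - cob ψ) :=
  SNull.fin (snull_all hK hr0 k ev hev h deg α hα hr)

end

end Pool.Agent.MP_9dc49b_gt.H35
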