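import Mathlib

/-!
Alexander-Spanier cochains with rational coefficients, their coboundary, locally zero cochains, and
the cup product of pull-backs.
-/

open Topology

namespace Pool.Agent.MP_9dc49b_gt.H35

/-- Rational functions of `n` points of `M`: the Alexander-Spanier cochains of degree `n - 1`. -/
abbrev Co (M : Type) (n : ℕ) : Type := (Fin n → M) → ℚ

/-- The Alexander-Spanier coboundary: the alternating sum over the omitted point. -/
def cob {M : Type} {n : ℕ} (φ : Co M n) : Co M (n + 1) :=
  fun x => ∑ i : Fin (n + 1), (-1) ^ (i : ℕ) * φ (fun j => x (i.succAbove j))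

/-- A cochain is locally zero if every point has a neighbourhood on whose tuples it vanishes. -/
def LocZero {M : Type} [TopologicalSpace M] {n : ℕ} (φ : Co M n) : Prop :=
  ∀ m : M, ∃ U ∈ 𝓝 m, ∀ x : Fin n → M, (∀ j, x j ∈ U) → φ x = 0

theorem idx_lt {k : ℕ} (deg : Fin k → ℕ) (i : Fin k) (j : Fin (deg i + 1)) :
    ∑ l ∈ Finset.Iio i, deg l + j < ∑ l, deg l + 1 := by
  have h1 : ∑ l ∈ insert i (Finset.Iio i), deg l ≤ ∑ l, deg l :=
    Finset.sum_le_sum_of_subset (Finset.subset_univ _)
  rw [Finset.sum_insert (by simp)] at h1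
  have := j.2
  omega

/-- The cup product of the pull-backs of cochains `α i` of degree `deg i` on `X` along maps
`ev i : M → X`: the `i`-th factor is evaluated on the points with indices from
`deg 0 + ... + deg (i - 1)` to `deg 0 + ... + deg i`. -/
def evCup {M X : Type} {k : ℕ} (ev : Fin k → M → X) (deg : Fin k → ℕ)
    (α : ∀ i, Co X (deg i + 1)) : Co M (∑ i, deg i + 1) :=
  fun x => ∏ i, α i (fun j => ev i (x ⟨∑ l ∈ Finset.Iio i, deg l + j, idx_lt deg i j⟩))

end Pool.Agent.MP_9dc49b_gt.H35
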