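import Mathlib

/-! Coordinate algebra for the example `S² × S² × T²`. -/

open scoped ContDiff

namespace Pool.Agent.MP_9dc49b_gt.H35

abbrev V10 := Fin 10 → ℝ
abbrev V8 := Fin 8 → ℝ

/-- Reduction of an ambient vector to sphere components and two angular components. -/
def red (a : V10) : V10 →ₗ[ℝ] V8 where
  toFun c := ![c 0, c 1, c 2, c 3, c 4, c 5, a 6 * c 7 - a 7 * c 6, a 8 * c 9 - a 9 * c 8]
  map_add' b c := by ext i; fin_cases i <;> simp <;> ring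
  map_smul' r c := by ext i; fin_cases i <;> simp <;> ring

lemma red_apply (a c : V10) : red a c =
    ![c 0, c 1, c 2, c 3, c 4, c 5, a 6 * c 7 - a 7 * c 6, a 8 * c 9 - a 9 * c 8] := rfl

def omF (a : V10) (b c : V8) : ℝ :=
  a 0 * (b 1 * c 2 - b 2 * c 1) + a 1 * (b 2 * c 0 - b 0 * c 2) + a 2 * (b 0 * c 1 - b 1 * c 0) +
  (a 3 * (b 4 * c 5 - b 5 * c 4) + a 4 * (b 5 * c 3 - b 3 * c 5) + a 5 * (b 3 * c 4 - b 4 * c 3)) +
  (b 6 * c 7 - b 7 * c 6)

/-- The product symplectic form in reduced coordinates. -/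
def Om (a : V10) : V8 →ₗ[ℝ] V8 →ₗ[ℝ] ℝ :=
  LinearMap.mk₂ ℝ (omF a) (by intros; simp [omF]; ring) (by intros; simp [omF]; ring)
    (by intros; simp [omF]; ring) (by intros; simp [omF]; ring)

lemma Om_apply (a : V10) (b c : V8) : Om a b c = omF a b c := rfl

def jF (a : V10) (b : V8) : V8 :=
  ![a 1 * b 2 - a 2 * b 1, a 2 * b 0 - a 0 * b 2, a 0 * b 1 - a 1 * b 0,
    a 4 * b 5 - a 5 * b 4, a 5 * b 3 - a 3 * b 5, a 3 * b 4 - a 4 * b 3, -b 7, b 6]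

def phiF (l : ℝ) (a : V10) (b : V8) : V8 :=
  ![b 0 + l * (b 6 * a 4 - b 7 * a 3) * a 1, b 1 - l * (b 6 * a 4 - b 7 * a 3) * a 0, b 2,
    b 3, b 4, b 5, b 6 + l * b 2 * a 3, b 7 + l * b 2 * a 4]

/-- The conjugated almost complex structure in reduced coordinates. -/
def K (l : ℝ) (a : V10) : V8 →ₗ[ℝ] V8 where
  toFun b := phiF l a (jF a (phiF (-l) a b))
  map_add' b c := by ext i; fin_cases i <;> simp [phiF, jF] <;> ring
  map_smul' r c := by ext i; fin_cases i <;> simp [phiF, jF] <;> ring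

lemma K_apply (l : ℝ) (a : V10) (b : V8) : K l a b = phiF l a (jF a (phiF (-l) a b)) := rfl

/-- The base point lies on the product of spheres and circles. -/
structure On (a : V10) : Prop where
  h1 : a 0 ^ 2 + a 1 ^ 2 + a 2 ^ 2 = 1
  h2 : a 3 ^ 2 + a 4 ^ 2 + a 5 ^ 2 = 1
  h3 : a 6 ^ 2 + a 7 ^ 2 = 1
  h4 : a 8 ^ 2 + a 9 ^ 2 = 1

/-- Tangency of a reduced vector. -/
structure Tan (a : V10) (b : V8) : Prop where
  h1 : a 0 * b 0 + a 1 * b 1 + a 2 * b 2 = 0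
  h2 : a 3 * b 3 + a 4 * b 4 + a 5 * b 5 = 0

/-- Tangency of an ambient vector. -/
structure Tan10 (a c : V10) : Prop where
  h1 : a 0 * c 0 + a 1 * c 1 + a 2 * c 2 = 0
  h2 : a 3 * c 3 + a 4 * c 4 + a 5 * c 5 = 0
  h3 : a 6 * c 6 + a 7 * c 7 = 0
  h4 : a 8 * c 8 + a 9 * c 9 = 0

lemma phi_phi (l : ℝ) (a : V10) (b : V8) : phiF (-l) a (phiF l a b) = b := by
  ext i; fin_cases i <;> simp [phiF] <;> ring

lemma phi_phi' (l : ℝ) (a : V10) (b : V8) : phiF l a (phiF (-l) a b) = b := by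
  have := phi_phi (-l) a b
  rwa [neg_neg] at this

lemma phi_neg (l : ℝ) (a : V10) (b : V8) : phiF l a (-b) = -phiF l a b := by
  ext i; fin_cases i <;> simp [phiF] <;> ring

lemma Tan.phi {a : V10} {b : V8} (h : Tan a b) (l : ℝ) : Tan a (phiF l a b) := by
  constructor
  · simp [phiF]; linear_combination h.h1
  · simp [phiF]; linear_combination h.h2

lemma tan_j (a : V10) (b : V8) : Tan a (jF a b) := by
  constructor <;> simp [jF] <;> ring

lemma tan_K (l : ℝ) (a : V10) (b : V8) : Tan a (K l a b) := (tan_j a _).phi l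

lemma j_j {a : V10} {b : V8} (ha : On a) (h : Tan a b) : jF a (jF a b) = -b := by
  ext i; fin_cases i <;> simp [jF]
  · linear_combination a 0 * h.h1 - b 0 * ha.h1
  · linear_combination a 1 * h.h1 - b 1 * ha.h1
  · linear_combination a 2 * h.h1 - b 2 * ha.h1
  · linear_combination a 3 * h.h2 - b 3 * ha.h2
  · linear_combination a 4 * h.h2 - b 4 * ha.h2
  · linear_combination a 5 * h.h2 - b 5 * ha.h2

lemma K_K (l : ℝ) {a : V10} {b : V8} (ha : On a) (h : Tan a b) : K l a (K l a b) = -b := by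
  rw [K_apply, K_apply, phi_phi, j_j ha (h.phi _), phi_neg, phi_phi']

lemma om_phi (l : ℝ) {a : V10} {b c : V8} (ha : On a) (hb : Tan a b) (hc : Tan a c) :
    omF a (phiF l a b) (phiF l a c) = omF a b c := by
  simp [omF, phiF]
  linear_combination
    (l * (c 6 * a 4 - c 7 * a 3) * b 2 - l * (b 6 * a 4 - b 7 * a 3) * c 2) * ha.h1 -
    l * (c 6 * a 4 - c 7 * a 3) * a 2 * hb.h1 + l * (b 6 * a 4 - b 7 * a 3) * a 2 * hc.h1

lemma om_j {a : V10} {b c : V8} (ha : On a) (hb : Tan a b) :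
    omF a b (jF a c) = b 0 * c 0 + b 1 * c 1 + b 2 * c 2 + b 3 * c 3 + b 4 * c 4 + b 5 * c 5 +
      b 6 * c 6 + b 7 * c 7 := by
  simp [omF, jF]
  linear_combination (b 0 * c 0 + b 1 * c 1 + b 2 * c 2) * ha.h1 -
    (a 0 * c 0 + a 1 * c 1 + a 2 * c 2) * hb.h1 + (b 3 * c 3 + b 4 * c 4 + b 5 * c 5) * ha.h2 -
    (a 3 * c 3 + a 4 * c 4 + a 5 * c 5) * hb.h2

lemma om_anti (a : V10) (b c : V8) : omF a b c = -omF a c b := by
  simp [omF]; ring

lemma om_K (l : ℝ) {a : V10} {b c : V8} (ha : On a) (hb : Tan a b) :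
    omF a b (K l a c) = ∑ i, phiF (-l) a b i * phiF (-l) a c i := by
  have h1 := om_phi l ha (hb.phi (-l)) (tan_j a (phiF (-l) a c))
  rw [phi_phi'] at h1
  rw [K_apply, h1, om_j ha (hb.phi _), Fin.sum_univ_eight]

lemma om_K_K (l : ℝ) {a : V10} {b c : V8} (ha : On a) (hb : Tan a b) (hc : Tan a c) :
    omF a (K l a b) (K l a c) = omF a b c := by
  have h1 := om_K l (c := c) ha (tan_K l a b)
  have h2 := om_K l (c := K l a b) ha hc
  rw [K_K l ha hb] at h2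
  have h3 : omF a c (-b) = omF a b c := by simp [omF]; ring
  rw [h1, ← h3, h2]
  exact Finset.sum_congr rfl fun i _ => mul_comm _ _

lemma om_K_pos (l : ℝ) {a : V10} {b : V8} (ha : On a) (hb : Tan a b) (h0 : b ≠ 0) :
    0 < omF a b (K l a b) := by
  rw [om_K l ha hb]
  have hne : phiF (-l) a b ≠ 0 := by
    intro h
    apply h0
    rw [← phi_phi' l a b, h]
    ext i; fin_cases i <;> simp [phiF]
  obtain ⟨i, hi⟩ := Function.ne_iff.1 hne
  exact Finset.sum_pos' (fun j _ => mul_self_nonneg _) ⟨i, Finset.mem_univ _, mul_self_pos.2 hi⟩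

/-- The form evaluated on ambient vectors. -/
def Q (a b c : V10) : ℝ := omF a (red a b) (red a c)

/-- Its derivative in the base point. -/
def Q1 (a d b c : V10) : ℝ :=
  d 0 * (b 1 * c 2 - b 2 * c 1) + d 1 * (b 2 * c 0 - b 0 * c 2) + d 2 * (b 0 * c 1 - b 1 * c 0) +
  (d 3 * (b 4 * c 5 - b 5 * c 4) + d 4 * (b 5 * c 3 - b 3 * c 5) + d 5 * (b 3 * c 4 - b 4 * c 3)) +
  ((d 6 * b 7 - d 7 * b 6) * (a 8 * c 9 - a 9 * c 8) +
    (a 6 * b 7 - a 7 * b 6) * (d 8 * c 9 - d 9 * c 8) -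
    (d 8 * b 9 - d 9 * b 8) * (a 6 * c 7 - a 7 * c 6) -
    (a 8 * b 9 - a 9 * b 8) * (d 6 * c 7 - d 7 * c 6))

lemma Tan10.w1 {a u v : V10} (ha : On a) (hu : Tan10 a u) (hv : Tan10 a v) :
    u 6 * v 7 - u 7 * v 6 = 0 := by
  linear_combination (-(u 6 * v 7 - u 7 * v 6)) * ha.h3 + (a 6 * v 7 - a 7 * v 6) * hu.h3 -
    (a 6 * u 7 - a 7 * u 6) * hv.h3

lemma Tan10.w2 {a u v : V10} (ha : On a) (hu : Tan10 a u) (hv : Tan10 a v) :
    u 8 * v 9 - u 9 * v 8 = 0 := by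
  linear_combination (-(u 8 * v 9 - u 9 * v 8)) * ha.h4 + (a 8 * v 9 - a 9 * v 8) * hu.h4 -
    (a 8 * u 9 - a 9 * u 8) * hv.h4

lemma det_zero {x0 x1 x2 u0 u1 u2 v0 v1 v2 w0 w1 w2 : ℝ} (hx : x0 ^ 2 + x1 ^ 2 + x2 ^ 2 = 1)
    (hu : x0 * u0 + x1 * u1 + x2 * u2 = 0) (hv : x0 * v0 + x1 * v1 + x2 * v2 = 0)
    (hw : x0 * w0 + x1 * w1 + x2 * w2 = 0) :
    u0 * (v1 * w2 - v2 * w1) + u1 * (v2 * w0 - v0 * w2) + u2 * (v0 * w1 - v1 * w0) = 0 := by
  linear_combination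
    (-(u0 * (v1 * w2 - v2 * w1) + u1 * (v2 * w0 - v0 * w2) + u2 * (v0 * w1 - v1 * w0))) * hx +
    (x0 * (v1 * w2 - v2 * w1) + x1 * (v2 * w0 - v0 * w2) + x2 * (v0 * w1 - v1 * w0)) * hu +
    (x0 * (w1 * u2 - w2 * u1) + x1 * (w2 * u0 - w0 * u2) + x2 * (w0 * u1 - w1 * u0)) * hv +
    (x0 * (u1 * v2 - u2 * v1) + x1 * (u2 * v0 - u0 * v2) + x2 * (u0 * v1 - u1 * v0)) * hw

lemma Q1_zero {a u v w : V10} (ha : On a) (hu : Tan10 a u) (hv : Tan10 a v) (hw : Tan10 a w) :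
    Q1 a u v w = 0 := by
  unfold Q1
  rw [det_zero ha.h1 hu.h1 hv.h1 hw.h1, det_zero ha.h2 hu.h2 hv.h2 hw.h2, hu.w1 ha hv,
    hu.w1 ha hw, hu.w2 ha hv, hu.w2 ha hw]
  ring

lemma Q_anti (a b c : V10) : Q a b c = -Q a c b := om_anti _ _ _

section
variable {E : Type} [NormedAddCommGroup E] [NormedSpace ℝ E]

lemma fderiv_coord {a : E → V10} {y : E} (ha : DifferentiableAt ℝ a y) (i : Fin 10) (u : E) :
    fderiv ℝ (fun y => a y i) y u = fderiv ℝ a y u i := by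
  rw [fderiv_apply ha i]; rfl

lemma fderiv_Q {a b c : E → V10} {y : E} (ha : DifferentiableAt ℝ a y)
    (hb : DifferentiableAt ℝ b y) (hc : DifferentiableAt ℝ c y) (u : E) :
    fderiv ℝ (fun y => Q (a y) (b y) (c y)) y u =
      Q1 (a y) (fderiv ℝ a y u) (b y) (c y) + Q (a y) (fderiv ℝ b y u) (c y) +
        Q (a y) (b y) (fderiv ℝ c y u) := by
  simp only [Q, omF, red_apply, Q1, Matrix.cons_val]
  simp (disch := fun_prop) only [fderiv_fun_add, fderiv_fun_sub, fderiv_fun_mul,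
    add_apply, sub_apply, smul_apply,
    smul_eq_mul, fderiv_coord ha, fderiv_coord hb, fderiv_coord hc]
  ring

lemma contDiffAt_Q {a b c : E → V10} {y : E} (ha : ContDiffAt ℝ ∞ a y)
    (hb : ContDiffAt ℝ ∞ b y) (hc : ContDiffAt ℝ ∞ c y) :
    ContDiffAt ℝ ∞ (fun y => Q (a y) (b y) (c y)) y := by
  simp only [Q, omF, red_apply, Matrix.cons_val]
  fun_prop

lemma contDiffAt_QK (l : ℝ) {a b c : E → V10} {y : E} (ha : ContDiffAt ℝ ∞ a y)
    (hb : ContDiffAt ℝ ∞ b y) (hc : ContDiffAt ℝ ∞ c y) :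
    ContDiffAt ℝ ∞ (fun y => omF (a y) (K l (a y) (red (a y) (b y))) (red (a y) (c y))) y := by
  simp only [omF, red_apply, K_apply, phiF, jF, Matrix.cons_val]
  fun_prop

lemma closed_Q {F : E → V10} {y : E} (hF : ContDiffAt ℝ ∞ F y) (hon : On (F y))
    (ht : ∀ v, Tan10 (F y) (fderiv ℝ F y v)) (u v w : E) :
    fderiv ℝ (fun y => Q (F y) (fderiv ℝ F y v) (fderiv ℝ F y w)) y u +
    fderiv ℝ (fun y => Q (F y) (fderiv ℝ F y w) (fderiv ℝ F y u)) y v +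
    fderiv ℝ (fun y => Q (F y) (fderiv ℝ F y u) (fderiv ℝ F y v)) y w = 0 := by
  have h1 : DifferentiableAt ℝ F y := hF.differentiableAt (by simp)
  have h2 : DifferentiableAt ℝ (fderiv ℝ F) y :=
    (hF.fderiv_right (m := ∞) (by simp)).differentiableAt (by simp)
  have h3 : ∀ v, DifferentiableAt ℝ (fun y => fderiv ℝ F y v) y := fun v => by fun_prop
  have h4 : ∀ u v, fderiv ℝ (fun y => fderiv ℝ F y v) y u = fderiv ℝ (fderiv ℝ F) y u v := by
    intro u v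
    rw [fderiv_clm_apply h2 (differentiableAt_const v)]
    simp
  have hs : IsSymmSndFDerivAt ℝ F y := hF.isSymmSndFDerivAt (by
    simp only [minSmoothness_of_isRCLikeNormedField]; exact WithTop.coe_le_coe.2 (le_top : (2 : ℕ∞) ≤ ⊤))
  rw [fderiv_Q h1 (h3 v) (h3 w), fderiv_Q h1 (h3 w) (h3 u), fderiv_Q h1 (h3 u) (h3 v),
    Q1_zero hon (ht u) (ht v) (ht w), Q1_zero hon (ht v) (ht w) (ht u),
    Q1_zero hon (ht w) (ht u) (ht v)]
  simp only [h4]
  rw [hs v u, hs w u, hs w v, Q_anti _ (fderiv ℝ F y v), Q_anti _ (fderiv ℝ F y w),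
    Q_anti _ (fderiv ℝ F y u)]
  ring

end

end Pool.Agent.MP_9dc49b_gt.H35
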