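import Pool.Agent.MP_9dc49b_gt.H35.Defs
import Pool.Agent.MP_9dc49b_gt.H35.Alg

/-! The tangent spaces of `S² × S² × T²` in ambient coordinates. -/

open scoped Manifold ContDiff

namespace Pool.Agent.MP_9dc49b_gt.H35

/-- The unit sphere in Euclidean three-space. -/
abbrev S2 : Type := Metric.sphere (0 : EuclideanSpace ℝ (Fin 3)) 1

/-- The six-manifold `S² × S² × S¹ × S¹`. -/
abbrev X6 : Type := S2 × S2 × Circle × Circle

/-- Its model with corners, the product of the models of the four factors. -/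
noncomputable abbrev I6 := (𝓡 2).prod ((𝓡 2).prod ((𝓡 1).prod (𝓡 1)))

abbrev R3 := EuclideanSpace ℝ (Fin 3)
abbrev R2 := EuclideanSpace ℝ (Fin 2)
abbrev R1 := EuclideanSpace ℝ (Fin 1)
abbrev E6 := R2 × R2 × R1 × R1
abbrev A := R3 × R3 × ℂ × ℂ

lemma fact3 : Fact (Module.finrank ℝ R3 = 2 + 1) := ⟨by simp⟩

lemma smooth_val2 : ContMDiff (𝓡 2) 𝓘(ℝ, R3) ∞ (fun x : S2 => (x : R3)) :=
  haveI := fact3
  contMDiff_coe_sphere

lemma smooth_val1 : ContMDiff (𝓡 1) 𝓘(ℝ, ℂ) ∞ (fun t : Circle => (t : ℂ)) :=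
  haveI := finrank_real_complex_fact'
  contMDiff_coe_sphere (E := ℂ)

noncomputable def d2 (x : S2) : R2 →L[ℝ] R3 := mvfderiv (𝓡 2) (fun x : S2 => (x : R3)) x

noncomputable def d1 (t : Circle) : R1 →L[ℝ] ℂ := mvfderiv (𝓡 1) (fun t : Circle => (t : ℂ)) t

lemma d2_inj (x : S2) : Function.Injective (d2 x) :=
  haveI := fact3
  injective_mvfderiv_subtypeVal_sphere x

lemma d1_inj (t : Circle) : Function.Injective (d1 t) :=
  haveI := finrank_real_complex_fact'
  injective_mvfderiv_subtypeVal_sphere (E := ℂ) t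

lemma d2_range (x : S2) (b : R3) :
    (∃ v, d2 x v = b) ↔ x.1 0 * b 0 + x.1 1 * b 1 + x.1 2 * b 2 = 0 := by
  have := fact3
  have h : (d2 x).range = (ℝ ∙ (x : R3))ᗮ := range_mvfderiv_subtypeVal x
  have h2 : (∃ v, d2 x v = b) ↔ b ∈ (d2 x).range := Iff.rfl
  rw [h2, h, Submodule.mem_orthogonal_singleton_iff_inner_right]
  simp [PiLp.inner_apply, Fin.sum_univ_three, mul_comm]

lemma d1_range (t : Circle) (b : ℂ) :
    (∃ v, d1 t v = b) ↔ (t : ℂ).re * b.re + (t : ℂ).im * b.im = 0 := by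
  have := finrank_real_complex_fact'
  have h : (d1 t).range = (ℝ ∙ (t : ℂ))ᗮ := range_mvfderiv_subtypeVal (E := ℂ) t
  have h2 : (∃ v, d1 t v = b) ↔ b ∈ (d1 t).range := Iff.rfl
  rw [h2, h, Submodule.mem_orthogonal_singleton_iff_inner_right]
  simp [Complex.inner, mul_comm]

def iota (p : X6) : A := (p.1, p.2.1, p.2.2.1, p.2.2.2)

noncomputable def dIota (p : X6) : E6 →L[ℝ] A :=
  (d2 p.1).prodMap ((d2 p.2.1).prodMap ((d1 p.2.2.1).prodMap (d1 p.2.2.2)))

def Mlin : A →ₗ[ℝ] V10 where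
  toFun a := ![a.1 0, a.1 1, a.1 2, a.2.1 0, a.2.1 1, a.2.1 2, a.2.2.1.re, a.2.2.1.im,
    a.2.2.2.re, a.2.2.2.im]
  map_add' b c := by ext i; fin_cases i <;> simp
  map_smul' r c := by ext i; fin_cases i <;> simp

lemma Mlin_apply (a : A) : Mlin a = ![a.1 0, a.1 1, a.1 2, a.2.1 0, a.2.1 1, a.2.1 2,
    a.2.2.1.re, a.2.2.1.im, a.2.2.2.re, a.2.2.2.im] := rfl

noncomputable def M : A →L[ℝ] V10 := LinearMap.toContinuousLinearMap Mlin

lemma M_apply (a : A) : M a = Mlin a := rfl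

/-- The ambient coordinates of a point. -/
noncomputable def emb (p : X6) : V10 := M (iota p)

/-- The reduced coordinates of a tangent vector. -/
noncomputable def D (p : X6) : E6 →ₗ[ℝ] V8 := red (emb p) ∘ₗ Mlin ∘ₗ (dIota p).toLinearMap

lemma D_apply (p : X6) (v : E6) : D p v = red (emb p) (M (dIota p v)) := rfl

lemma S2_norm (x : S2) : x.1 0 ^ 2 + x.1 1 ^ 2 + x.1 2 ^ 2 = 1 := by
  have h := x.2
  rw [mem_sphere_zero_iff_norm, EuclideanSpace.norm_eq, Real.sqrt_eq_one, Fin.sum_univ_three] at h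
  simpa using h

lemma circle_norm (t : Circle) : (t : ℂ).re ^ 2 + (t : ℂ).im ^ 2 = 1 := by
  have h := Circle.normSq_coe t
  rw [Complex.normSq_apply] at h
  linear_combination h

lemma on_emb (p : X6) : On (emb p) := by
  constructor <;> simp only [emb, M_apply, Mlin_apply, iota, Matrix.cons_val]
  · exact S2_norm _
  · exact S2_norm _
  · exact circle_norm _
  · exact circle_norm _

lemma tan10_emb (p : X6) (v : E6) : Tan10 (emb p) (M (dIota p v)) := by
  constructor <;> simp only [emb, M_apply, Mlin_apply, iota, Matrix.cons_val]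
  · exact (d2_range _ _).1 ⟨_, rfl⟩
  · exact (d2_range _ _).1 ⟨_, rfl⟩
  · exact (d1_range _ _).1 ⟨_, rfl⟩
  · exact (d1_range _ _).1 ⟨_, rfl⟩

lemma tan_D (p : X6) (v : E6) : Tan (emb p) (D p v) := by
  have h := tan10_emb p v
  constructor <;> simp only [D_apply, red_apply, Matrix.cons_val]
  · exact h.h1
  · exact h.h2

lemma circ_zero {a b c d : ℝ} (h : a ^ 2 + b ^ 2 = 1) (h1 : a * c + b * d = 0)
    (h2 : a * d - b * c = 0) : c = 0 ∧ d = 0 :=
  ⟨by linear_combination (-c) * h + a * h1 - b * h2,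
    by linear_combination (-d) * h + b * h1 + a * h2⟩

lemma D_inj (p : X6) : Function.Injective (D p) := by
  rw [injective_iff_map_eq_zero]
  intro v hv
  have ht := tan10_emb p v
  have ho := on_emb p
  have h := fun i => congrFun hv i
  have h0 := h 0
  have h1 := h 1
  have h2 := h 2
  have h3 := h 3
  have h4 := h 4
  have h5 := h 5
  have h6 := h 6
  have h7 := h 7
  simp only [D_apply, red_apply, Matrix.cons_val, Pi.zero_apply] at h0 h1 h2 h3 h4 h5 h6 h7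
  obtain ⟨k6, k7⟩ := circ_zero ho.h3 ht.h3 h6
  obtain ⟨k8, k9⟩ := circ_zero ho.h4 ht.h4 h7
  simp only [M_apply, Mlin_apply, Matrix.cons_val] at h0 h1 h2 h3 h4 h5 k6 k7 k8 k9
  obtain ⟨v1, v2, v3, v4⟩ := v
  have e1 : d2 p.1 v1 = 0 := by
    ext i; fin_cases i
    exacts [h0, h1, h2]
  have e2 : d2 p.2.1 v2 = 0 := by
    ext i; fin_cases i
    exacts [h3, h4, h5]
  have e3 : d1 p.2.2.1 v3 = 0 := Complex.ext k6 k7
  have e4 : d1 p.2.2.2 v4 = 0 := Complex.ext k8 k9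
  rw [(injective_iff_map_eq_zero _).1 (d2_inj _) _ e1, (injective_iff_map_eq_zero _).1 (d2_inj _) _ e2,
    (injective_iff_map_eq_zero _).1 (d1_inj _) _ e3, (injective_iff_map_eq_zero _).1 (d1_inj _) _ e4]
  rfl

lemma D_surj (p : X6) {b : V8} (hb : Tan (emb p) b) : ∃ v, D p v = b := by
  have h1 := hb.h1
  have h2 := hb.h2
  simp only [emb, M_apply, Mlin_apply, iota, Matrix.cons_val] at h1 h2
  obtain ⟨v1, e1⟩ := (d2_range p.1 !₂[b 0, b 1, b 2]).2 (by simpa using h1)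
  obtain ⟨v2, e2⟩ := (d2_range p.2.1 !₂[b 3, b 4, b 5]).2 (by simpa using h2)
  obtain ⟨v3, e3⟩ := (d1_range p.2.2.1 (b 6 * Complex.I * p.2.2.1)).2 (by simp; ring)
  obtain ⟨v4, e4⟩ := (d1_range p.2.2.2 (b 7 * Complex.I * p.2.2.2)).2 (by simp; ring)
  refine ⟨(v1, v2, v3, v4), ?_⟩
  have e : dIota p (v1, v2, v3, v4) = (!₂[b 0, b 1, b 2], !₂[b 3, b 4, b 5],
      b 6 * Complex.I * p.2.2.1, b 7 * Complex.I * p.2.2.2) := by
    rw [← e1, ← e2, ← e3, ← e4]; rfl
  rw [D_apply, e]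
  ext i
  fin_cases i <;> simp [red_apply, M_apply, Mlin_apply, emb, iota]
  · linear_combination b 6 * circle_norm p.2.2.1
  · linear_combination b 7 * circle_norm p.2.2.2

section
variable {E : Type} [NormedAddCommGroup E] [NormedSpace ℝ E]

lemma hasFDerivAt_iota {f : E → X6} {y : E} (hf : MDifferentiableAt 𝓘(ℝ, E) I6 f y) :
    HasFDerivAt (fun y => iota (f y))
      ((dIota (f y)).comp (mfderiv 𝓘(ℝ, E) I6 f y : E →L[ℝ] E6)) y := by
  have h := hf.hasMFDerivAt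
  have a1 := (hasMFDerivAt_fst (f y)).comp y h
  have a2 := (hasMFDerivAt_snd (f y)).comp y h
  have a3 := (hasMFDerivAt_fst (f y).2).comp y a2
  have a4 := (hasMFDerivAt_snd (f y).2).comp y a2
  have a5 := (hasMFDerivAt_fst (f y).2.2).comp y a4
  have a6 := (hasMFDerivAt_snd (f y).2.2).comp y a4
  have b1 := ((smooth_val2 (f y).1).mdifferentiableAt (by simp)).hasMFDerivAt.comp y a1
  have b2 := ((smooth_val2 (f y).2.1).mdifferentiableAt (by simp)).hasMFDerivAt.comp y a3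
  have b3 := ((smooth_val1 (f y).2.2.1).mdifferentiableAt (by simp)).hasMFDerivAt.comp y a5
  have b4 := ((smooth_val1 (f y).2.2.2).mdifferentiableAt (by simp)).hasMFDerivAt.comp y a6
  exact b1.hasFDerivAt.prodMk (b2.hasFDerivAt.prodMk (b3.hasFDerivAt.prodMk b4.hasFDerivAt))

lemma fderiv_emb {f : E → X6} {y : E} (hf : MDifferentiableAt 𝓘(ℝ, E) I6 f y) (v : E) :
    fderiv ℝ (fun y => emb (f y)) y v = M (dIota (f y) (mfderiv 𝓘(ℝ, E) I6 f y v)) := by
  have h := (M.hasFDerivAt.comp y (hasFDerivAt_iota hf)).fderiv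
  exact congrArg (fun L : E →L[ℝ] V10 => L v) h

lemma D_mfderiv {f : E → X6} {y : E} (hf : MDifferentiableAt 𝓘(ℝ, E) I6 f y) (v : E) :
    D (f y) (mfderiv 𝓘(ℝ, E) I6 f y v) = red (emb (f y)) (fderiv ℝ (fun y => emb (f y)) y v) := by
  rw [fderiv_emb hf]; rfl

lemma contDiffAt_emb {f : E → X6} {y : E} (hf : ContMDiffAt 𝓘(ℝ, E) I6 ∞ f y) :
    ContDiffAt ℝ ∞ (fun y => emb (f y)) y := by
  have b1 := (smooth_val2 (f y).1).comp y hf.fst
  have b2 := (smooth_val2 (f y).2.1).comp y hf.snd.fst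
  have b3 := (smooth_val1 (f y).2.2.1).comp y hf.snd.snd.fst
  have b4 := (smooth_val1 (f y).2.2.2).comp y hf.snd.snd.snd
  exact M.contDiff.contDiffAt.comp y
    (b1.contDiffAt.prodMk (b2.contDiffAt.prodMk (b3.contDiffAt.prodMk b4.contDiffAt)))

end

/-- The product symplectic form. -/
noncomputable def sig (p : X6) : TangentSpace I6 p →ₗ[ℝ] TangentSpace I6 p →ₗ[ℝ] ℝ :=
  ((Om (emb p)).compl₁₂ (D p) (D p) : E6 →ₗ[ℝ] E6 →ₗ[ℝ] ℝ)

lemma sig_apply (p : X6) (v w : TangentSpace I6 p) :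
    sig p v w = omF (emb p) (D p v) (D p w) := rfl

noncomputable def R (p : X6) : V8 →ₗ[ℝ] E6 :=
  ((D p).exists_leftInverse_of_injective (LinearMap.ker_eq_bot.2 (D_inj p))).choose

lemma R_D (p : X6) (v : E6) : R p (D p v) = v :=
  LinearMap.congr_fun
    ((D p).exists_leftInverse_of_injective (LinearMap.ker_eq_bot.2 (D_inj p))).choose_spec v

/-- The family of almost complex structures. -/
noncomputable def JJ (l : ℝ) (p : X6) : TangentSpace I6 p →ₗ[ℝ] TangentSpace I6 p :=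
  (R p ∘ₗ K l (emb p) ∘ₗ D p : E6 →ₗ[ℝ] E6)

lemma D_JJ (l : ℝ) (p : X6) (v : TangentSpace I6 p) :
    D p (JJ l p v) = K l (emb p) (D p v) := by
  obtain ⟨w, hw⟩ := D_surj p (tan_K l (emb p) (D p v))
  change D p (R p (K l (emb p) (D p v))) = _
  rw [← hw, R_D]

end Pool.Agent.MP_9dc49b_gt.H35
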