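import Pool.Agent.MP_9dc49b_gt.H35.ASCup
import Pool.Agent.MP_9dc49b_gt.H35.Bridge

/-! The cohomology near a compact neighbourhood of the fibre product vanishes in degree twelve. -/

open Set Filter Topology

namespace Pool.Agent.MP_9dc49b_gt.H35

/-- The quotient of the first circle coordinates. -/
noncomputable def rat (z : X6 × X6) : ℂ := (z.1.2.2.1 / z.2.2.2.1 : Circle)

lemma rat_cont : Continuous rat :=
  continuous_subtype_val.comp (Continuous.div' (f := fun z : X6 × X6 => z.1.2.2.1)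
    (g := fun z : X6 × X6 => z.2.2.2.1) (by fun_prop) (by fun_prop))

lemma fin_S2 (a : S2) : {s : S2 | s.1 0 = a.1 0 ∧ s.1 1 = a.1 1}.Finite := by
  have hn : ∀ s : S2, s.1 0 ^ 2 + s.1 1 ^ 2 + s.1 2 ^ 2 = 1 := fun s => by
    have := EuclideanSpace.real_norm_sq_eq s.1
    rw [norm_eq_of_mem_sphere, Fin.sum_univ_three] at this
    linarith
  refine Set.Finite.of_finite_image (f := fun s : S2 => s.1 2)
    ((Set.toFinite {a.1 2, -a.1 2}).subset ?_) ?_
  · rintro _ ⟨s, hs, rfl⟩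
    have h1 := hn s
    rw [hs.1, hs.2] at h1
    exact sq_eq_sq_iff_eq_or_eq_neg.1 (by linarith [hn a])
  · intro s hs t ht h
    ext i
    fin_cases i
    exacts [hs.1.trans ht.1.symm, hs.2.trans ht.2.symm, h]

lemma circ_sq (s : Circle) : (s : ℂ).re ^ 2 + (s : ℂ).im ^ 2 = 1 := by
  have := Circle.normSq_coe s
  rw [Complex.normSq_apply] at this
  linarith

lemma fin_circ (a : Circle) : {s : Circle | (s : ℂ).re = (a : ℂ).re}.Finite := by
  refine Set.Finite.of_finite_image (f := fun s : Circle => (s : ℂ).im)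
    ((Set.toFinite {(a : ℂ).im, -(a : ℂ).im}).subset ?_) ?_
  · rintro _ ⟨s, hs, rfl⟩
    have h1 := circ_sq s
    rw [show (s : ℂ).re = (a : ℂ).re from hs] at h1
    exact sq_eq_sq_iff_eq_or_eq_neg.1 (by linarith [circ_sq a])
  · intro s hs t ht h
    exact Circle.ext (Complex.ext (Eq.trans hs (Eq.symm ht)) h)

theorem van_K : Van {z : X6 × X6 | 0 ≤ (rat z).re} 12 := by
  have hK : IsCompact {z : X6 × X6 | 0 ≤ (rat z).re} :=
    (isClosed_le continuous_const (Complex.continuous_re.comp rat_cont)).isCompact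
  refine van_list [fun z => z.1.1.1 0, fun z => z.1.1.1 1, fun z => z.1.2.1.1 0,
    fun z => z.1.2.1.1 1, fun z => (z.1.2.2.1 : ℂ).re, fun z => (z.1.2.2.2 : ℂ).re,
    fun z => z.2.1.1 0, fun z => z.2.1.1 1, fun z => z.2.2.1.1 0, fun z => z.2.2.1.1 1,
    fun z => (z.2.2.2.2 : ℂ).re] ?_ 1 _ hK fun B hB hBK hc => ?_
  · simp only [List.mem_cons, List.not_mem_nil, or_false, forall_eq_or_imp, forall_eq]
    refine ⟨?_, ?_, ?_, ?_, ?_, ?_, ?_, ?_, ?_, ?_, ?_⟩ <;> fun_prop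
  rcases B.eq_empty_or_nonempty with rfl | ⟨a, ha⟩
  · exact fun n _ φ _ => ex_empty φ
  simp only [List.mem_cons, List.not_mem_nil, or_false, forall_eq_or_imp, forall_eq] at hc
  obtain ⟨c1, c2, c3, c4, c5, c6, c7, c8, c9, c10, c11⟩ := hc
  have hg : Continuous fun z : X6 × X6 => (z.1, z.2.1, z.2.2.1, z.2.2.2.2) := by fun_prop
  refine van_fin hg hB (((fin_S2 a.1.1).prod ((fin_S2 a.1.2.1).prod ((fin_circ a.1.2.2.1).prod
    (fin_circ a.1.2.2.2)))).prod ((fin_S2 a.2.1).prod ((fin_S2 a.2.2.1).prod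
      (fin_circ a.2.2.2.2)))) (fun z hz => ⟨⟨⟨c1 z hz a ha, c2 z hz a ha⟩,
        ⟨c3 z hz a ha, c4 z hz a ha⟩, c5 z hz a ha, c6 z hz a ha⟩, ⟨c7 z hz a ha, c8 z hz a ha⟩,
        ⟨c9 z hz a ha, c10 z hz a ha⟩, c11 z hz a ha⟩) fun w => ?_
  refine van_step (hB.inter_right (isClosed_singleton.preimage hg))
    (Complex.continuous_im.comp rat_cont) fun t => van_sub fun x hx y hy => ?_
  have e1 : (x.1, x.2.1, x.2.2.1, x.2.2.2.2) = (y.1, y.2.1, y.2.2.1, y.2.2.2.2) :=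
    Eq.trans hx.1.2 (Eq.symm hy.1.2)
  have e2 : (rat x).im = (rat y).im := Eq.trans hx.2 (Eq.symm hy.2)
  have e3 : (rat x).re = (rat y).re := by
    have h1 := circ_sq (x.1.2.2.1 / x.2.2.2.1)
    have h2 := circ_sq (y.1.2.2.1 / y.2.2.2.1)
    refine (sq_eq_sq₀ (hBK hx.1.1) (hBK hy.1.1)).1 ?_
    change (rat x).re ^ 2 + (rat x).im ^ 2 = 1 at h1
    change (rat y).re ^ 2 + (rat y).im ^ 2 = 1 at h2
    rw [e2] at h1
    linarith
  have e4 : x.1.2.2.1 / x.2.2.2.1 = y.1.2.2.1 / y.2.2.2.1 := Circle.ext (Complex.ext e3 e2)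
  simp only [Prod.mk.injEq] at e1
  rw [e1.1, div_right_inj] at e4
  exact Prod.ext e1.1 (Prod.ext e1.2.1 (Prod.ext e1.2.2.1 (Prod.ext e4 e1.2.2.2)))

end Pool.Agent.MP_9dc49b_gt.H35
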