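import Pool.Agent.MP_9dc49b_gt.H35.ASDefs

/-! Vanishing of Alexander-Spanier cohomology above the dimension. -/

open Set Filter Topology

namespace Pool.Agent.MP_9dc49b_gt.H35

section
variable {Y : Type}

/-- The coboundary as a linear map. -/
def cobL (Y : Type) (n : ℕ) : Co Y n →ₗ[ℚ] Co Y (n + 1) where
  toFun := cob
  map_add' φ ψ := by
    funext x
    simp [cob, mul_add, Finset.sum_add_distrib]
  map_smul' c φ := by
    funext x
    simp [cob, Finset.mul_sum, mul_left_comm]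

lemma cob_add {n : ℕ} (φ ψ : Co Y n) : cob (φ + ψ) = cob φ + cob ψ := (cobL Y n).map_add φ ψ
lemma cob_sub {n : ℕ} (φ ψ : Co Y n) : cob (φ - ψ) = cob φ - cob ψ := (cobL Y n).map_sub φ ψ
lemma cob_zero {n : ℕ} : cob (0 : Co Y n) = 0 := (cobL Y n).map_zero

lemma cob_cons {n : ℕ} (φ : Co Y (n + 1)) (a : Y) (y : Fin (n + 1) → Y) :
    cob φ (Fin.cons a y) = φ y - cob (fun w => φ (Fin.cons a w)) y := by
  unfold cob
  rw [Fin.sum_univ_succ]
  have h : ∀ i : Fin (n + 1), (fun j => (Fin.cons a y : Fin (n + 2) → Y) (i.succ.succAbove j)) =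
      (Fin.cons a (fun j => y (i.succAbove j)) : Fin (n + 1) → Y) := by
    intro i
    funext j
    cases j using Fin.cases <;> simp
  simp only [h]
  simp [pow_succ, sub_eq_add_neg]

lemma cob_cob {n : ℕ} (φ : Co Y n) : cob (cob φ) = 0 := by
  induction n with
  | zero =>
    funext x
    have h : ∀ u v : Fin 0 → Y, φ u = φ v := fun u v => congrArg φ (Subsingleton.elim _ _)
    simp only [cob, Fin.sum_univ_succ, Fin.sum_univ_zero]
    simp [h _ Fin.elim0]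
  | succ n ih =>
    funext x
    rw [← Fin.cons_self_tail x, cob_cons]
    have : (fun w => cob φ (Fin.cons (x 0) w)) = φ - cob (fun w => φ (Fin.cons (x 0) w)) := by
      funext w
      exact cob_cons φ _ w
    rw [this, cob_sub, ih]
    simp

/-- Cochains vanishing on the tuples of points of `U`. -/
def VU {n : ℕ} (U : Set Y) (φ : Co Y n) : Prop := ∀ x : Fin n → Y, (∀ j, x j ∈ U) → φ x = 0

lemma VU.cob {n : ℕ} {U : Set Y} {φ : Co Y n} (h : VU U φ) : VU U (cob φ) := fun x hx =>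
  Finset.sum_eq_zero fun i _ => by rw [h _ fun j => hx _, mul_zero]

lemma VU.anti {n : ℕ} {U V : Set Y} {φ : Co Y n} (h : VU U φ) (hV : V ⊆ U) : VU V φ :=
  fun x hx => h x fun j => hV (hx j)

variable [TopologicalSpace Y]

/-- Cochains vanishing near the points of `K`. -/
def NK (K : Set Y) (n : ℕ) : Submodule ℚ (Co Y n) where
  carrier := {φ | ∀ x ∈ K, ∃ U ∈ 𝓝 x, VU U φ}
  add_mem' a b x hx := by
    obtain ⟨U, a1, a2⟩ := a x hx
    obtain ⟨V, b1, b2⟩ := b x hx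
    exact ⟨U ∩ V, inter_mem a1 b1, fun y hy => by
      simp [a2 y fun j => (hy j).1, b2 y fun j => (hy j).2]⟩
  zero_mem' _ _ := ⟨univ, univ_mem, fun _ _ => rfl⟩
  smul_mem' c _ a x hx := by
    obtain ⟨U, a1, a2⟩ := a x hx
    exact ⟨U, a1, fun y hy => by simp [a2 y hy]⟩

variable {K L : Set Y} {n : ℕ}

lemma NK_cob {φ : Co Y n} (h : φ ∈ NK K n) : cob φ ∈ NK K (n + 1) := fun x hx =>
  let ⟨U, a, b⟩ := h x hx; ⟨U, a, b.cob⟩

lemma NK_anti (h : K ⊆ L) {φ : Co Y n} (a : φ ∈ NK L n) : φ ∈ NK K n := fun x hx => a x (h hx)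

lemma NK_union {φ : Co Y n} (a : φ ∈ NK K n) (b : φ ∈ NK L n) : φ ∈ NK (K ∪ L) n :=
  fun x hx => hx.elim (a x) (b x)

lemma NK_open (φ : Co Y n) : IsOpen {x | ∃ U ∈ 𝓝 x, VU U φ} :=
  isOpen_iff_eventually.2 fun _ ⟨U, a, b⟩ =>
    (eventually_mem_nhds_iff.2 a).mono fun _ hy => ⟨U, hy, b⟩

lemma NK_mv [T2Space Y] (hK : IsCompact K) (hL : IsCompact L) {φ : Co Y (n + 1)}
    (h : φ ∈ NK (K ∩ L) (n + 1)) : ∃ ψ ∈ NK K (n + 1), φ - ψ ∈ NK L (n + 1) := by
  classical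
  have hO := NK_open φ
  obtain ⟨O1, O2, a1, a2, a3, a4, a5⟩ := SeparatedNhds.of_isCompact_isCompact (hK.diff hO)
    (hL.diff hO) (disjoint_left.2 fun x hx hx' => hx.2 (h x ⟨hx.1, hx'.1⟩))
  refine ⟨fun x => if x 0 ∈ O2 then φ x else 0, fun x hx => ?_, fun x hx => ?_⟩
  · by_cases e : ∃ U ∈ 𝓝 x, VU U φ
    · obtain ⟨U, b, c⟩ := e
      exact ⟨U, b, fun y hy => by simp [c y hy]⟩
    · exact ⟨O1, a1.mem_nhds (a3 ⟨hx, e⟩), fun y hy => if_neg (disjoint_left.1 a5 (hy 0))⟩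
  · by_cases e : ∃ U ∈ 𝓝 x, VU U φ
    · obtain ⟨U, b, c⟩ := e
      exact ⟨U, b, fun y hy => by simp [c y hy]⟩
    · exact ⟨O2, a2.mem_nhds (a4 ⟨hx, e⟩), fun y hy => by simp [hy 0]⟩

/-- Exact near `K`. -/
def Ex (K : Set Y) {n : ℕ} (φ : Co Y (n + 1)) : Prop := ∃ ψ : Co Y n, φ - cob ψ ∈ NK K (n + 1)

lemma Ex.anti {φ : Co Y (n + 1)} (a : Ex L φ) (h : K ⊆ L) : Ex K φ :=
  let ⟨ψ, b⟩ := a; ⟨ψ, NK_anti h b⟩

lemma ex_empty (φ : Co Y (n + 1)) : Ex ∅ φ := ⟨0, fun _ h => h.elim⟩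

/-- Reduced cohomology near `K` vanishes from degree `k` on. -/
def Van (K : Set Y) (k : ℕ) : Prop :=
  ∀ n, k ≤ n → ∀ φ : Co Y (n + 1), cob φ ∈ NK K (n + 2) → Ex K φ

lemma ex_union [T2Space Y] (hK : IsCompact K) (hL : IsCompact L) {φ : Co Y (n + 2)}
    (h1 : Ex K φ) (h2 : Ex L φ)
    (h : ∀ χ : Co Y (n + 1), cob χ ∈ NK (K ∩ L) (n + 2) → Ex (K ∩ L) χ) : Ex (K ∪ L) φ := by
  obtain ⟨ψ, a⟩ := h1
  obtain ⟨ψ', b⟩ := h2
  obtain ⟨ω, c⟩ := h (ψ' - ψ) (by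
    have := sub_mem (NK_anti (inter_subset_left (t := L)) a)
      (NK_anti (inter_subset_right (s := K)) b)
    convert this using 1
    rw [cob_sub]
    abel)
  obtain ⟨ν, e1, e2⟩ := NK_mv hK hL c
  refine ⟨ψ + cob ω + ν, NK_union ?_ ?_⟩
  · convert sub_mem a (NK_cob e1) using 1
    rw [cob_add, cob_add, cob_cob]
    abel
  · convert add_mem b (NK_cob e2) using 1
    rw [cob_add, cob_add, cob_sub, cob_sub, cob_sub, cob_cob]
    abel

lemma van_sub (h : K.Subsingleton) : Van K 0 := by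
  rcases h.eq_empty_or_singleton with rfl | ⟨a, rfl⟩
  · exact fun n _ φ _ => ex_empty φ
  · intro n _ φ hφ
    obtain ⟨U, b, c⟩ := hφ a rfl
    refine ⟨fun w => φ (Fin.cons a w), fun y hy => ?_⟩
    obtain rfl : y = a := hy
    refine ⟨U, b, fun x hx => ?_⟩
    rw [Pi.sub_apply, ← cob_cons]
    refine c _ fun j => ?_
    cases j using Fin.cases
    · simpa using mem_of_mem_nhds b
    · simpa using hx _

lemma van_step [T2Space Y] {A : Set Y} (hA : IsCompact A) {c : Y → ℝ} (hc : Continuous c) {k : ℕ}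
    (h : ∀ z, Van (A ∩ c ⁻¹' {z}) k) : Van A (k + 1) := by
  intro n hn φ hφ
  obtain ⟨m, rfl⟩ : ∃ m, n = m + 1 := ⟨n - 1, by omega⟩
  have cp : ∀ J : Set ℝ, IsClosed J → IsCompact (A ∩ c ⁻¹' J) := fun J hJ =>
    hA.inter_right (hJ.preimage hc)
  have loc : ∀ z : ℝ, ∀ᶠ t in 𝓝 z, (Ex (A ∩ c ⁻¹' Iic t) φ ↔ Ex (A ∩ c ⁻¹' Iic z) φ) := by
    intro z
    obtain ⟨ψ, hψ⟩ := h z (m + 1) (by omega) φ (NK_anti inter_subset_left hφ)
    have hcl : IsClosed (c '' (A \ {x | ∃ U ∈ 𝓝 x, VU U (φ - cob ψ)})) :=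
      ((hA.diff (NK_open _)).image hc).isClosed
    have hz : z ∈ (c '' (A \ {x | ∃ U ∈ 𝓝 x, VU U (φ - cob ψ)}))ᶜ := by
      rintro ⟨x, hx, rfl⟩
      exact hx.2 (hψ x ⟨hx.1, rfl⟩)
    obtain ⟨l, u, a1, a2⟩ := mem_nhds_iff_exists_Ioo_subset.1 (hcl.isOpen_compl.mem_nhds hz)
    have key : ∀ s t, s ∈ Ioo l u → t ∈ Ioo l u → Ex (A ∩ c ⁻¹' Iic s) φ →
        Ex (A ∩ c ⁻¹' Iic t) φ := by
      intro s t hs ht he
      rcases le_total t s with hst | hst
      · exact he.anti (inter_subset_inter_right _ (preimage_mono (Iic_subset_Iic.2 hst)))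
      · have e : (A ∩ c ⁻¹' Iic s) ∩ (A ∩ c ⁻¹' Icc s t) = A ∩ c ⁻¹' {s} := by
          ext x
          simp only [mem_inter_iff, mem_preimage, mem_Iic, mem_Icc, mem_singleton_iff]
          constructor
          · exact fun hx => ⟨hx.1.1, le_antisymm hx.1.2 hx.2.2.1⟩
          · exact fun hx => ⟨⟨hx.1, hx.2.le⟩, hx.1, hx.2.ge, hx.2.le.trans hst⟩
        refine (ex_union (cp _ isClosed_Iic) (cp (Icc s t) isClosed_Icc) he ⟨ψ, fun x hx => ?_⟩
          (e ▸ h s m (by omega))).anti fun x hx => ?_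
        · by_contra hn
          exact a2 (Icc_subset_Ioo hs.1 ht.2 hx.2) ⟨x, ⟨hx.1, hn⟩, rfl⟩
        · rcases le_total (c x) s with h' | h'
          · exact Or.inl ⟨hx.1, h'⟩
          · exact Or.inr ⟨hx.1, h', hx.2⟩
    filter_upwards [Ioo_mem_nhds a1.1 a1.2] with t ht
    exact ⟨key t z ht a1, key z t a1 ht⟩
  have hcl : IsClopen {t | Ex (A ∩ c ⁻¹' Iic t) φ} :=
    ⟨⟨isOpen_iff_eventually.2 fun z hz => (loc z).mono fun t ht h' => hz (ht.1 h')⟩,
      isOpen_iff_eventually.2 fun z hz => (loc z).mono fun t ht => ht.2 hz⟩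
  obtain ⟨lo, hlo⟩ := (hA.image hc).bddBelow
  obtain ⟨hi, hhi⟩ := (hA.image hc).bddAbove
  have hne : {t | Ex (A ∩ c ⁻¹' Iic t) φ}.Nonempty := ⟨lo - 1, (ex_empty φ).anti fun x hx => by
    have h1 : lo ≤ c x := hlo ⟨x, hx.1, rfl⟩
    have h2 : c x ≤ lo - 1 := hx.2
    linarith⟩
  have : hi ∈ {t | Ex (A ∩ c ⁻¹' Iic t) φ} := by
    rw [hcl.eq_univ hne]
    trivial
  exact Ex.anti this fun x hx => ⟨hx, hhi ⟨x, hx, rfl⟩⟩

lemma van_list [T2Space Y] (cs : List (Y → ℝ)) (hc : ∀ c ∈ cs, Continuous c) (k : ℕ) :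
    ∀ A : Set Y, IsCompact A → (∀ B, IsCompact B → B ⊆ A →
      (∀ c ∈ cs, ∀ x ∈ B, ∀ y ∈ B, c x = c y) → Van B k) → Van A (k + cs.length) := by
  induction cs with
  | nil => exact fun A hA h => h A hA subset_rfl (by simp)
  | cons c cs ih =>
    intro A hA h
    have h1 := hc c (by simp)
    refine van_step hA h1 fun z => ih (fun d hd => hc d (by simp [hd])) _
      (hA.inter_right (isClosed_singleton.preimage h1)) fun B hB hBA hd =>
        h B hB (hBA.trans inter_subset_left) ?_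
    intro d hd' x hx y hy
    rcases List.mem_cons.1 hd' with rfl | hd'
    · exact (hBA hx).2.trans (hBA hy).2.symm
    · exact hd d hd' x hx y hy

lemma van_fin [T2Space Y] {W : Type} [TopologicalSpace W] [T1Space W] {g : Y → W}
    (hg : Continuous g) {A : Set Y} (hA : IsCompact A) {F : Set W} (hF : F.Finite)
    (hAF : A ⊆ g ⁻¹' F) {k : ℕ} (h : ∀ z, Van (A ∩ g ⁻¹' {z}) (k + 1)) : Van A (k + 1) := by
  intro n hn φ hφ
  obtain ⟨m, rfl⟩ : ∃ m, n = m + 1 := ⟨n - 1, by omega⟩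
  have key : ∀ F : Set W, F.Finite → Ex (A ∩ g ⁻¹' F) φ := by
    intro F hF
    induction F, hF using Set.Finite.induction_on with
    | empty => simpa using ex_empty φ
    | @insert z F hz hF ih =>
      have e : (A ∩ g ⁻¹' {z}) ∩ (A ∩ g ⁻¹' F) = ∅ :=
        eq_empty_of_forall_notMem fun x hx => hz (by
          have h1 : g x = z := hx.1.2
          exact h1 ▸ hx.2.2)
      refine (ex_union (hA.inter_right (isClosed_singleton.preimage hg))
        (hA.inter_right (hF.isClosed.preimage hg))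
        (h z _ hn φ (NK_anti inter_subset_left hφ)) ih
        (e ▸ fun χ _ => ex_empty χ)).anti fun x hx => ?_
      rcases hx.2 with h' | h'
      · exact Or.inl ⟨hx.1, h'⟩
      · exact Or.inr ⟨hx.1, h'⟩
  exact (key F hF).anti fun x hx => ⟨hx, hAF hx⟩

end

end Pool.Agent.MP_9dc49b_gt.H35
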