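import Pool.Agent.MP_9dc49b_gt.H35.Sph

/-! Any two points are joined by a chain of five nonconstant holomorphic spheres. -/

open scoped Manifold ContDiff Topology

namespace Pool.Agent.MP_9dc49b_gt.H35

lemma path5_tree : (SimpleGraph.pathGraph 5).IsTree := by
  rw [SimpleGraph.isTree_iff_connected_and_card]
  refine ⟨SimpleGraph.pathGraph_connected 4, ?_⟩
  have h : (SimpleGraph.pathGraph 5).edgeSet =
      (({s(0, 1), s(1, 2), s(2, 3), s(3, 4)} : Finset (Sym2 (Fin 5))) : Set (Sym2 (Fin 5))) := by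
    ext e
    induction e using Sym2.ind with
    | _ a b =>
      rw [SimpleGraph.mem_edgeSet, SimpleGraph.pathGraph_adj, Finset.mem_coe]
      revert a b
      decide
  rw [h, Nat.card_coe_set_eq, Set.ncard_coe_finset, Nat.card_fin]
  decide

noncomputable def north : S2 := ⟨!₂[0, 0, 1], mem_S2 (by simp)⟩
noncomputable def south : S2 := ⟨!₂[0, 0, -1], mem_S2 (by simp)⟩

lemma north_ne_south : north ≠ south := by
  intro h
  have := congrArg (fun x : S2 => x.1 2) h
  simp [north, south] at this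
  norm_num at this

lemma exists_far (x x' : S2) : ∃ x1 : S2, 9 / 25 ≤ (x1.1 2 - x.1 2) ^ 2 ∧ x1 ≠ x' := by
  have key : ∀ e : ℝ, e ^ 2 = 1 → e * x.1 2 ≤ 0 →
      ∃ x1 : S2, 9 / 25 ≤ (x1.1 2 - x.1 2) ^ 2 ∧ x1 ≠ x' := by
    intro e he hx
    let a : S2 := ⟨!₂[4 / 5, 0, 3 / 5 * e], mem_S2 (by simp; linear_combination 9 / 25 * he)⟩
    let b : S2 := ⟨!₂[-4 / 5, 0, 3 / 5 * e], mem_S2 (by simp; linear_combination 9 / 25 * he)⟩
    have h : 9 / 25 ≤ (3 / 5 * e - x.1 2) ^ 2 := by nlinarith [sq_nonneg (x.1 2)]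
    by_cases hax : a = x'
    · refine ⟨b, h, fun hb => ?_⟩
      have := congrArg (fun x : S2 => x.1 0) (hax.trans hb.symm)
      simp [a, b] at this
      norm_num at this
    · exact ⟨a, h, hax⟩
  rcases le_total (x.1 2) 0 with h | h
  · exact key 1 (by norm_num) (by linarith)
  · exact key (-1) (by norm_num) (by linarith)

lemma exists_level {d a b : ℝ} (hd : 9 / 25 ≤ d ^ 2) (ha : |a| ≤ 4) (hb : |b| ≤ 4) :
    ∃ y : S2, 10 * y.1 0 * d = a ∧ 10 * y.1 1 * d = b ∧ y ≠ north := by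
  have hd0 : d ≠ 0 := by
    rintro rfl
    norm_num at hd
  have ha2 : a ^ 2 ≤ 16 := by nlinarith [abs_le.1 ha]
  have hb2 : b ^ 2 ≤ 16 := by nlinarith [abs_le.1 hb]
  have h1 : 0 ≤ 1 - (a / (10 * d)) ^ 2 - (b / (10 * d)) ^ 2 := by
    have : (a / (10 * d)) ^ 2 + (b / (10 * d)) ^ 2 = (a ^ 2 + b ^ 2) / (100 * d ^ 2) := by
      field_simp
      ring
    have h2 : (a ^ 2 + b ^ 2) / (100 * d ^ 2) ≤ 1 := by
      rw [div_le_one (by positivity)]
      linarith
    linarith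
  refine ⟨⟨!₂[a / (10 * d), b / (10 * d), -√(1 - (a / (10 * d)) ^ 2 - (b / (10 * d)) ^ 2)],
    mem_S2 ?_⟩, ?_, ?_, fun h => ?_⟩
  · simp only [Matrix.cons_val, neg_sq, Real.sq_sqrt h1]
    ring
  · simp only [Matrix.cons_val]
    field_simp
  · simp only [Matrix.cons_val]
    field_simp
  · have := congrArg (fun x : S2 => x.1 2) h
    simp only [north, Matrix.cons_val] at this
    linarith [Real.sqrt_nonneg (1 - (a / (10 * d)) ^ 2 - (b / (10 * d)) ^ 2)]

lemma circ_shift (t t' : Circle) {c h h1 : ℝ} (e : c * (h1 - h) = Complex.arg (t' / t : Circle)) :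
    t * Circle.exp (-(c * h)) * Circle.exp (c * h1) = t' := by
  rw [mul_assoc, ← Circle.exp_add, show -(c * h) + c * h1 = c * (h1 - h) by ring, e, Circle.exp_arg]
  simp

lemma circ_shift' (t : Circle) (c : ℝ) : t * Circle.exp (-c) * Circle.exp c = t := by
  rw [mul_assoc, ← Circle.exp_add]
  simp

theorem joined (p q : X6) : ∃ (n : ℕ) (T : SimpleGraph (Fin n)) (u : Fin n → OnePoint ℂ → X6)
    (z : Fin n → Fin n → OnePoint ℂ), TreeMap I6 (JJ 10) T u z ∧ (∀ a, ∃ s t, u a s ≠ u a t) ∧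
      (∃ a s, u a s = p) ∧ ∃ b t, u b t = q := by
  obtain ⟨x, y, t⟩ := p
  obtain ⟨x', y', t'⟩ := q
  obtain ⟨x1, hx1, hne⟩ := exists_far x x'
  have harg : ∀ c : ℂ, |Complex.arg c| ≤ 4 := fun c =>
    (Complex.abs_arg_le_pi c).trans Real.pi_le_four
  obtain ⟨y1, e1, e2, hy1⟩ := exists_level hx1 (harg (t'.1 / t.1 : Circle)) (harg (t'.2 / t.2 : Circle))
  have hxx : x ≠ x1 := by
    rintro rfl
    norm_num at hx1
  choose σ hσ using sph_surj
  have hinj : Function.Injective σ := fun a b h => by rw [← hσ a, h, hσ]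
  let τ : Circle × Circle :=
    (t.1 * Circle.exp (-(10 * y1.1 0 * x.1 2)), t.2 * Circle.exp (-(10 * y1.1 1 * x.1 2)))
  let m : Fin 5 → S2 → X6 := ![mB x t, mA 10 y1 τ, mB x1 t', mA 10 north t', mB x' t']
  let lo : Fin 5 → S2 := ![y, x, y1, x1, north]
  let hi : Fin 5 → S2 := ![y1, x1, north, x', y']
  have n01 : mB x t y1 = mA 10 y1 τ x := by
    simp only [mA, mB, τ, circ_shift']
  have n12 : mA 10 y1 τ x1 = mB x1 t' y1 := by
    simp only [mA, mB, τ, circ_shift _ _ e1, circ_shift _ _ e2]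
  have n23 : ∀ x, mB x t' north = mA 10 north t' x := by
    intro x
    simp [mA, mB, north]
  refine ⟨5, SimpleGraph.pathGraph 5, fun a z => m a (sph z),
    fun a b => σ (if b < a then lo a else hi a), ⟨path5_tree, fun a => ?_, fun a b hab => ?_,
      fun a b c hab hac h => ?_⟩, fun a => ⟨σ north, σ south, ?_⟩, ⟨0, σ y, ?_⟩, 4, σ y', ?_⟩
  · fin_cases a
    exacts [sphereB _ _ _, sphereA _ _ _, sphereB _ _ _, sphereA _ _ _, sphereB _ _ _]
  · rw [SimpleGraph.pathGraph_adj] at hab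
    simp only [hσ]
    fin_cases a <;> fin_cases b <;> simp at hab <;> simp [m, lo, hi, n01, n12, n23]
  · rw [SimpleGraph.pathGraph_adj] at hab hac
    have h' := hinj h
    fin_cases a <;> fin_cases b <;> simp at hab <;> fin_cases c <;> simp at hac <;>
      simp [lo, hi, hxx, hxx.symm, hy1, hy1.symm, hne, hne.symm] at h' ⊢
  · simp only [hσ]
    fin_cases a <;> simp [m, mA, mB, north_ne_south]
  · simp [hσ, m, mB]
  · simp [hσ, m, mB]

end Pool.Agent.MP_9dc49b_gt.H35
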