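import Mathlib

/-!
Symplectic forms, compatible almost complex structures and trees of holomorphic spheres on a
boundaryless manifold `X` with model `I`.
-/

open scoped Manifold ContDiff

namespace Pool.Agent.MP_9dc49b_gt.H35

section

variable {E : Type} [NormedAddCommGroup E] [NormedSpace ℝ E] {H : Type} [TopologicalSpace H]
  (I : ModelWithCorners ℝ E H) {X : Type} [TopologicalSpace X] [ChartedSpace H X]

/-- The coordinate vector field with constant components `v` in the chart at `x₀`, evaluated at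
the point with coordinates `y`. -/
noncomputable def coordVec (x₀ : X) (v y : E) : TangentSpace I ((extChartAt I x₀).symm y) :=
  mfderiv 𝓘(ℝ, E) I (extChartAt I x₀).symm y v

/-- The coefficient function `y ↦ σ(v, w)` of a field of bilinear forms in the chart at `x₀`. -/
noncomputable def coeff (σ : ∀ x : X, TangentSpace I x →ₗ[ℝ] TangentSpace I x →ₗ[ℝ] ℝ)
    (x₀ : X) (v w y : E) : ℝ :=
  σ ((extChartAt I x₀).symm y) (coordVec I x₀ v y) (coordVec I x₀ w y)

/-- The coordinate expression `y ↦ J v` of a field of endomorphisms in the chart at `x₀`. -/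
noncomputable def coordEnd (J : ∀ x : X, TangentSpace I x →ₗ[ℝ] TangentSpace I x)
    (x₀ : X) (v y : E) : E :=
  mfderiv I 𝓘(ℝ, E) (extChartAt I x₀) ((extChartAt I x₀).symm y)
    (J ((extChartAt I x₀).symm y) (coordVec I x₀ v y))

/-- A symplectic form: a smooth, alternating, nondegenerate and closed field of bilinear forms. -/
structure IsSymplectic (σ : ∀ x : X, TangentSpace I x →ₗ[ℝ] TangentSpace I x →ₗ[ℝ] ℝ) :
    Prop where
  smooth : ∀ x₀ v w, ContDiffOn ℝ ∞ (coeff I σ x₀ v w) (extChartAt I x₀).target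
  alt : ∀ x v, σ x v v = 0
  nondeg : ∀ x v, (∀ w, σ x v w = 0) → v = 0
  closed : ∀ x₀, ∀ y ∈ (extChartAt I x₀).target, ∀ u v w : E,
    fderiv ℝ (coeff I σ x₀ v w) y u + fderiv ℝ (coeff I σ x₀ w u) y v +
      fderiv ℝ (coeff I σ x₀ u v) y w = 0

/-- A smooth `σ`-compatible almost complex structure. -/
structure Compatible (σ : ∀ x : X, TangentSpace I x →ₗ[ℝ] TangentSpace I x →ₗ[ℝ] ℝ)
    (J : ∀ x : X, TangentSpace I x →ₗ[ℝ] TangentSpace I x) : Prop where
  smooth : ∀ x₀ v, ContDiffOn ℝ ∞ (coordEnd I J x₀ v) (extChartAt I x₀).target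
  sq : ∀ x v, J x (J x v) = -v
  inv : ∀ x v w, σ x (J x v) (J x w) = σ x v w
  pos : ∀ x v, v ≠ 0 → 0 < σ x v (J x v)

/-- A smooth `J`-holomorphic map `ℂ → X`. -/
structure Holo (J : ∀ x : X, TangentSpace I x →ₗ[ℝ] TangentSpace I x) (f : ℂ → X) : Prop where
  smooth : ContMDiff 𝓘(ℝ, ℂ) I ∞ f
  cr : ∀ w v : ℂ, mfderiv 𝓘(ℝ, ℂ) I f w (Complex.I * v) = J (f w) (mfderiv 𝓘(ℝ, ℂ) I f w v)

/-- A smooth `J`-holomorphic map from the Riemann sphere, read in the charts `w` and `1 / w`. -/
def JSphere (J : ∀ x : X, TangentSpace I x →ₗ[ℝ] TangentSpace I x) (u : OnePoint ℂ → X) : Prop :=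
  Holo I J (fun w : ℂ => u (OnePoint.some w)) ∧
    Holo I J (fun w : ℂ => if w = 0 then u OnePoint.infty else u (OnePoint.some w⁻¹))

/-- A `J`-holomorphic map from a connected nodal curve of arithmetic genus zero: the components
are spheres indexed by the vertices of a tree `T`, and `z a b` is the node on component `a`
attached to component `b`. -/
structure TreeMap (J : ∀ x : X, TangentSpace I x →ₗ[ℝ] TangentSpace I x) {n : ℕ}
    (T : SimpleGraph (Fin n)) (u : Fin n → OnePoint ℂ → X) (z : Fin n → Fin n → OnePoint ℂ) :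
    Prop where
  tree : T.IsTree
  sphere : ∀ a, JSphere I J (u a)
  node : ∀ a b, T.Adj a b → u a (z a b) = u b (z b a)
  distinct : ∀ a b c, T.Adj a b → T.Adj a c → z a b = z a c → b = c

end

end Pool.Agent.MP_9dc49b_gt.H35
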