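import Pool.Agent.MP_9dc49b_gt.H35.Sympl

/-! For the product structure every holomorphic sphere lies in a fibre over the torus. -/

open scoped Manifold ContDiff Topology
open Filter

namespace Pool.Agent.MP_9dc49b_gt.H35

/-- An angular one-form evaluated along a map. -/
noncomputable def th (F : ℂ → V10) (i j : Fin 10) (v w : ℂ) : ℝ :=
  F w i * fderiv ℝ F w v j - F w j * fderiv ℝ F w v i

lemma th_diff {F : ℂ → V10} (hF : ContDiff ℝ ∞ F) (i j : Fin 10) (v : ℂ) :
    Differentiable ℝ (th F i j v) := by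
  have h1 : Differentiable ℝ F := hF.differentiable (by simp)
  have h2 : Differentiable ℝ (fderiv ℝ F) :=
    (hF.fderiv_right (m := ∞) (by simp)).differentiable (by simp)
  unfold th
  fun_prop

lemma th_fderiv {F : ℂ → V10} (hF : ContDiff ℝ ∞ F) (i j : Fin 10) (u v w : ℂ) :
    fderiv ℝ (th F i j v) w u = fderiv ℝ F w u i * fderiv ℝ F w v j -
      fderiv ℝ F w u j * fderiv ℝ F w v i + (F w i * fderiv ℝ (fderiv ℝ F) w u v j -
        F w j * fderiv ℝ (fderiv ℝ F) w u v i) := by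
  have h1 : DifferentiableAt ℝ F w := hF.differentiable (by simp) w
  have h2 : DifferentiableAt ℝ (fderiv ℝ F) w :=
    (hF.fderiv_right (m := ∞) (by simp)).differentiable (by simp) w
  have h3 : DifferentiableAt ℝ (fun y => fderiv ℝ F y v) w := by fun_prop
  have h4 : fderiv ℝ (fun y => fderiv ℝ F y v) w u = fderiv ℝ (fderiv ℝ F) w u v := by
    rw [fderiv_clm_apply h2 (differentiableAt_const v)]
    simp
  unfold th
  simp (disch := fun_prop) only [fderiv_fun_sub, fderiv_fun_mul, add_apply, sub_apply, smul_apply,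
    smul_eq_mul, fderiv_coord h1, fderiv_coord h3, h4]
  ring

lemma th_closed {F : ℂ → V10} (hF : ContDiff ℝ ∞ F) {i j : Fin 10} {w : ℂ}
    (hw : ∀ u v, fderiv ℝ F w u i * fderiv ℝ F w v j - fderiv ℝ F w u j * fderiv ℝ F w v i = 0)
    (u v : ℂ) : fderiv ℝ (th F i j v) w u = fderiv ℝ (th F i j u) w v := by
  have hs : IsSymmSndFDerivAt ℝ F w := hF.contDiffAt.isSymmSndFDerivAt (by
    simp only [minSmoothness_of_isRCLikeNormedField]
    exact WithTop.coe_le_coe.2 (le_top : (2 : ℕ∞) ≤ ⊤))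
  rw [th_fderiv hF, th_fderiv hF, hw, hw, hs u v]

noncomputable def GG (F : ℂ → V10) (v w : ℂ) : ℂ :=
  (th F 6 7 v w : ℂ) + (th F 8 9 v w : ℂ) * Complex.I

lemma GG_diff {F : ℂ → V10} (hF : ContDiff ℝ ∞ F) (ho : ∀ w, On (F w))
    (ht : ∀ w v, Tan10 (F w) (fderiv ℝ F w v))
    (c1 : ∀ w, th F 6 7 Complex.I w = -th F 8 9 1 w)
    (c2 : ∀ w, th F 8 9 Complex.I w = th F 6 7 1 w) : Differentiable ℂ (GG F 1) := by
  intro w
  have g1 := (th_diff hF 6 7 1 w).hasFDerivAt
  have g2 := (th_diff hF 8 9 1 w).hasFDerivAt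
  have hG : HasFDerivAt (GG F 1) _ w := (Complex.ofRealCLM.hasFDerivAt.comp w g1).add
    ((Complex.ofRealCLM.hasFDerivAt.comp w g2).mul_const Complex.I)
  rw [differentiableAt_complex_iff_differentiableAt_real]
  refine ⟨hG.differentiableAt, ?_⟩
  have e1 : fderiv ℝ (th F 6 7 1) w Complex.I = -fderiv ℝ (th F 8 9 1) w 1 := by
    rw [th_closed hF (fun u v => (ht w u).w1 (ho w) (ht w v)), funext c1, fderiv_fun_neg]
    rfl
  have e2 : fderiv ℝ (th F 8 9 1) w Complex.I = fderiv ℝ (th F 6 7 1) w 1 := by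
    rw [th_closed hF (fun u v => (ht w u).w2 (ho w) (ht w v)), funext c2]
  rw [hG.fderiv]
  apply Complex.ext <;> simp [e1, e2]

lemma GG_tendsto {F Ft : ℂ → V10} (hFt : ContDiff ℝ ∞ Ft) (h : ∀ w : ℂ, w ≠ 0 → F w = Ft w⁻¹) :
    Tendsto (GG F 1) (cocompact ℂ) (𝓝 0) := by
  have h1 : Continuous Ft := hFt.continuous
  have h2 : Continuous (fderiv ℝ Ft) := hFt.continuous_fderiv (by simp)
  have hc : Continuous (fun a : ℂ => GG Ft (-a ^ 2) a) := by
    unfold GG th
    fun_prop
  have h0 : GG Ft (-(0 : ℂ) ^ 2) 0 = 0 := by simp [GG, th]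
  have hinv : Tendsto (fun w : ℂ => w⁻¹) (cocompact ℂ) (𝓝 0) := by
    rw [← Metric.cobounded_eq_cocompact]
    exact tendsto_inv₀_cobounded
  have ht := (hc.tendsto 0).comp hinv
  rw [h0] at ht
  refine ht.congr' ?_
  have hne : ∀ᶠ w : ℂ in cocompact ℂ, w ≠ 0 := isCompact_singleton.compl_mem_cocompact
  filter_upwards [hne] with w hw
  have e : F =ᶠ[𝓝 w] fun w => Ft w⁻¹ := by
    filter_upwards [isOpen_ne.mem_nhds hw] with z hz
    exact h z hz
  have hd : HasFDerivAt (fun w => Ft w⁻¹) _ w :=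
    (hFt.differentiable (by simp) w⁻¹).hasFDerivAt.comp w
      ((hasDerivAt_inv hw).hasFDerivAt.restrictScalars ℝ)
  have e2 : fderiv ℝ F w 1 = fderiv ℝ Ft w⁻¹ (-w⁻¹ ^ 2) := by
    rw [e.fderiv_eq, hd.fderiv]
    simp
  simp only [Function.comp, GG, th, e2, h w hw]

lemma const_of {F Ft : ℂ → V10} (hF : ContDiff ℝ ∞ F) (hFt : ContDiff ℝ ∞ Ft)
    (h : ∀ w : ℂ, w ≠ 0 → F w = Ft w⁻¹) (ho : ∀ w, On (F w))
    (ht : ∀ w v, Tan10 (F w) (fderiv ℝ F w v))
    (c1 : ∀ w, th F 6 7 Complex.I w = -th F 8 9 1 w)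
    (c2 : ∀ w, th F 8 9 Complex.I w = th F 6 7 1 w) (i : Fin 10) (hi : 6 ≤ i.val) :
    (∀ w, F w i = F 0 i) ∧ Ft 0 i = F 0 i := by
  have hz : ∀ w, GG F 1 w = 0 := fun w =>
    (GG_diff hF ho ht c1 c2).apply_eq_of_tendsto_cocompact w (GG_tendsto hFt h)
  have z1 : ∀ w, th F 6 7 1 w = 0 := fun w => by simpa [GG] using congrArg Complex.re (hz w)
  have z2 : ∀ w, th F 8 9 1 w = 0 := fun w => by simpa [GG] using congrArg Complex.im (hz w)
  have hb : ∀ w v, v = 1 ∨ v = Complex.I → fderiv ℝ F w v i = 0 := by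
    intro w v hv
    have a1 : th F 6 7 v w = 0 := by rcases hv with rfl | rfl <;> simp [c1, z1, z2]
    have a2 : th F 8 9 v w = 0 := by rcases hv with rfl | rfl <;> simp [c2, z1, z2]
    obtain ⟨k6, k7⟩ := circ_zero (ho w).h3 (ht w v).h3 a1
    obtain ⟨k8, k9⟩ := circ_zero (ho w).h4 (ht w v).h4 a2
    fin_cases i <;> simp at hi
    exacts [k6, k7, k8, k9]
  have hd : Differentiable ℝ F := hF.differentiable (by simp)
  have hconst : ∀ w, F w i = F 0 i := by
    intro w
    refine is_const_of_fderiv_eq_zero (𝕜 := ℝ) (f := fun w => F w i) (by fun_prop) (fun z => ?_) w 0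
    ext v
    rw [fderiv_coord (hd z)]
    have hv : v = v.re • (1 : ℂ) + v.im • Complex.I := by
      apply Complex.ext <;> simp
    rw [hv, map_add, map_smul, map_smul]
    simp [hb z 1 (Or.inl rfl), hb z Complex.I (Or.inr rfl)]
  refine ⟨hconst, ?_⟩
  have hc : Continuous (fun a => Ft a i) := by
    have := hFt.continuous
    fun_prop
  have := Continuous.ext_on (dense_compl_singleton (0 : ℂ)) hc
    (continuous_const (y := F 0 i)) (fun a ha => by
      have ha' : a⁻¹ ≠ 0 := inv_ne_zero ha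
      have := h a⁻¹ ha'
      rw [inv_inv] at this
      simp only [← this, hconst])
  exact congrFun this 0

lemma torus_ext {p q : X6} (h : ∀ i : Fin 10, 6 ≤ i.val → emb p i = emb q i) : p.2.2 = q.2.2 := by
  have h6 := h 6 (by decide)
  have h7 := h 7 (by decide)
  have h8 := h 8 (by decide)
  have h9 := h 9 (by decide)
  simp only [emb, M_apply, Mlin_apply, iota, Matrix.cons_val] at h6 h7 h8 h9
  exact Prod.ext (Circle.ext (Complex.ext h6 h7)) (Circle.ext (Complex.ext h8 h9))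

theorem sphere_fibre {u : OnePoint ℂ → X6} (hu : JSphere I6 (JJ 0) u) (s t : OnePoint ℂ) :
    (u s).2.2 = (u t).2.2 := by
  obtain ⟨h0, h1⟩ := hu
  have hF : ContDiff ℝ ∞ (fun w : ℂ => emb (u (OnePoint.some w))) :=
    contDiff_iff_contDiffAt.2 fun w => contDiffAt_emb (h0.smooth w)
  have hFt := contDiff_iff_contDiffAt.2 fun w => contDiffAt_emb (h1.smooth w)
  have cr := (holo_iff h0.smooth).1 h0
  have key := const_of hF hFt (fun w hw => by simp [hw]) (fun w => on_emb _)
    (fun w v => by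
      rw [fderiv_emb ((h0.smooth w).mdifferentiableAt (by simp))]
      exact tan10_emb _ _)
    (fun w => by
      have := congrFun (cr w 1) 6
      simpa [red_apply, K_apply, phiF, jF, th] using this)
    (fun w => by
      have := congrFun (cr w 1) 7
      simpa [red_apply, K_apply, phiF, jF, th] using this)
  have all : ∀ s : OnePoint ℂ, (u s).2.2 = (u (OnePoint.some 0)).2.2 := by
    intro s
    apply torus_ext
    intro i hi
    induction s using OnePoint.rec with
    | infty => simpa using (key i hi).2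
    | coe w => exact (key i hi).1 w
  rw [all s, all t]

theorem tree_fibre {n : ℕ} {T : SimpleGraph (Fin n)} {u : Fin n → OnePoint ℂ → X6}
    {z : Fin n → Fin n → OnePoint ℂ} (h : TreeMap I6 (JJ 0) T u z) (a : Fin n) (s : OnePoint ℂ)
    (b : Fin n) (t : OnePoint ℂ) : (u a s).2.2 = (u b t).2.2 := by
  obtain ⟨p⟩ := h.tree.connected.preconnected a b
  induction p generalizing s with
  | nil => exact sphere_fibre (h.sphere _) s t
  | @cons a c b hac p ih =>
    rw [sphere_fibre (h.sphere a) s (z a c), h.node a c hac]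
    exact ih _

end Pool.Agent.MP_9dc49b_gt.H35
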