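import Pool.Agent.MP_9dc49b_gt.H35.Sympl

/-! Two families of holomorphic spheres. -/

open scoped Manifold ContDiff Topology

namespace Pool.Agent.MP_9dc49b_gt.H35

/-- A smooth map to the two-sphere that is holomorphic for the cross product structure. -/
structure SH (s : ℂ → S2) : Prop where
  smooth : ContDiff ℝ ∞ (fun w => (s w : R3))
  cr : ∀ w v : ℂ, ∀ L, L = fderiv ℝ (fun w => (s w : R3)) w →
    L (Complex.I * v) 0 = (s w).1 1 * L v 2 - (s w).1 2 * L v 1 ∧
    L (Complex.I * v) 1 = (s w).1 2 * L v 0 - (s w).1 0 * L v 2 ∧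
    L (Complex.I * v) 2 = (s w).1 0 * L v 1 - (s w).1 1 * L v 0

lemma SH.msmooth {s : ℂ → S2} (hs : SH s) : ContMDiff 𝓘(ℝ, ℂ) (𝓡 2) ∞ s :=
  haveI := fact3
  hs.smooth.contMDiff.codRestrict_sphere (fun w => (s w).2)

noncomputable def mA (l : ℝ) (y : S2) (t : Circle × Circle) (x : S2) : X6 :=
  (x, y, t.1 * Circle.exp (l * y.1 0 * x.1 2), t.2 * Circle.exp (l * y.1 1 * x.1 2))

def mB (x : S2) (t : Circle × Circle) (y : S2) : X6 := (x, y, t)

lemma circ_deriv {g : ℂ → ℝ} {g' : ℂ →L[ℝ] ℝ} {w : ℂ} (hg : HasFDerivAt g g' w) (t : Circle) :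
    ∃ L : ℂ →L[ℝ] ℂ, HasFDerivAt (fun w => ((t * Circle.exp (g w) : Circle) : ℂ)) L w ∧
      ∀ v, L v = g' v * Complex.I * ((t * Circle.exp (g w) : Circle) : ℂ) := by
  have h := (((Complex.ofRealCLM.hasFDerivAt.comp w hg).mul_const Complex.I).cexp).const_mul (t : ℂ)
  refine ⟨_, h, fun v => ?_⟩
  simp
  ring

lemma holoA (l : ℝ) {s : ℂ → S2} (hs : SH s) (y : S2) (t : Circle × Circle) :
    Holo I6 (JJ l) (fun w => mA l y t (s w)) := by
  have h2 : ContDiff ℝ ∞ (fun w => (s w).1 2) :=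
    (EuclideanSpace.proj (𝕜 := ℝ) (2 : Fin 3)).contDiff.comp hs.smooth
  have hc : ∀ (c : ℝ) (t : Circle), ContMDiff 𝓘(ℝ, ℂ) (𝓡 1) ∞
      (fun w => t * Circle.exp (c * (s w).1 2)) := fun c t =>
    contMDiff_const.mul (contMDiff_circleExp.comp (contDiff_const.mul h2).contMDiff)
  have hf : ContMDiff 𝓘(ℝ, ℂ) I6 ∞ (fun w => mA l y t (s w)) :=
    hs.msmooth.prodMk (contMDiff_const.prodMk ((hc _ _).prodMk (hc _ _)))
  rw [holo_iff hf]
  intro w v
  have hL := (hs.smooth.differentiable (by simp) w).hasFDerivAt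
  obtain ⟨c0, c1, c2⟩ := hs.cr w v _ rfl
  generalize fderiv ℝ (fun w => (s w : R3)) w = L at hL c0 c1 c2
  have hL2 : HasFDerivAt (fun w => (s w).1 2) _ w :=
    (EuclideanSpace.proj (𝕜 := ℝ) (2 : Fin 3)).hasFDerivAt.comp w hL
  obtain ⟨L1, k1, e1⟩ := circ_deriv (hL2.const_mul (l * y.1 0)) t.1
  obtain ⟨L2, k2, e2⟩ := circ_deriv (hL2.const_mul (l * y.1 1)) t.2
  have hF : HasFDerivAt (fun w => emb (mA l y t (s w))) _ w :=
    M.hasFDerivAt.comp w (hL.prodMk ((hasFDerivAt_const (y : R3) w).prodMk (k1.prodMk k2)))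
  rw [hF.fderiv]
  have n1 := circle_norm (t.1 * Circle.exp (l * y.1 0 * (s w).1 2))
  have n2 := circle_norm (t.2 * Circle.exp (l * y.1 1 * (s w).1 2))
  simp only [emb, iota, mA, ContinuousLinearMap.comp_apply, ContinuousLinearMap.prod_apply, e1, e2]
  generalize ((t.1 * Circle.exp (l * y.1 0 * (s w).1 2) : Circle) : ℂ) = τ1 at n1
  generalize ((t.2 * Circle.exp (l * y.1 1 * (s w).1 2) : Circle) : ℂ) = τ2 at n2
  have r : ∀ u : ℂ, red (M ((s w : R3), (y : R3), τ1, τ2)) (M (L u, (0 : ℂ →L[ℝ] R3) u,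
      (((l * y.1 0) • (EuclideanSpace.proj (𝕜 := ℝ) (2 : Fin 3)).comp L) u : ℝ) * Complex.I * τ1,
      (((l * y.1 1) • (EuclideanSpace.proj (𝕜 := ℝ) (2 : Fin 3)).comp L) u : ℝ) * Complex.I * τ2)) =
      phiF l (M ((s w : R3), (y : R3), τ1, τ2)) ![L u 0, L u 1, L u 2, 0, 0, 0, 0, 0] := by
    intro u
    ext i
    fin_cases i <;> simp [red_apply, M_apply, Mlin_apply, phiF]
    · linear_combination l * y.1 0 * L u 2 * n1
    · linear_combination l * y.1 1 * L u 2 * n2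
  rw [r, r, K_apply, phi_phi]
  congr 1
  ext i
  fin_cases i <;> simp [M_apply, Mlin_apply, jF, c0, c1, c2]

lemma holoB (l : ℝ) {s : ℂ → S2} (hs : SH s) (x : S2) (t : Circle × Circle) :
    Holo I6 (JJ l) (fun w => mB x t (s w)) := by
  have hf : ContMDiff 𝓘(ℝ, ℂ) I6 ∞ (fun w => mB x t (s w)) :=
    contMDiff_const.prodMk (hs.msmooth.prodMk contMDiff_const)
  rw [holo_iff hf]
  intro w v
  have hL := (hs.smooth.differentiable (by simp) w).hasFDerivAt
  obtain ⟨c0, c1, c2⟩ := hs.cr w v _ rfl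
  generalize fderiv ℝ (fun w => (s w : R3)) w = L at hL c0 c1 c2
  have hF : HasFDerivAt (fun w => emb (mB x t (s w))) _ w :=
    M.hasFDerivAt.comp w ((hasFDerivAt_const (x : R3) w).prodMk (hL.prodMk
      (hasFDerivAt_const ((t.1 : ℂ), (t.2 : ℂ)) w)))
  rw [hF.fderiv]
  ext i
  fin_cases i <;>
    simp [emb, iota, mB, red_apply, K_apply, phiF, jF, M_apply, Mlin_apply, c0, c1, c2]

noncomputable def stv (e : ℝ) (w : ℂ) : R3 :=
  !₂[2 * w.re * (1 + w.re * w.re + w.im * w.im)⁻¹, 2 * e * w.im * (1 + w.re * w.re + w.im * w.im)⁻¹,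
    e * (2 * (1 + w.re * w.re + w.im * w.im)⁻¹ - 1)]

lemma Npos (w : ℂ) : 1 + w.re * w.re + w.im * w.im ≠ 0 := by
  have : 0 < 1 + w.re * w.re + w.im * w.im := by nlinarith [mul_self_nonneg w.re, mul_self_nonneg w.im]
  exact this.ne'

lemma mem_S2 {x : R3} (h : x 0 ^ 2 + x 1 ^ 2 + x 2 ^ 2 = 1) : x ∈ Metric.sphere (0 : R3) 1 := by
  rw [mem_sphere_zero_iff_norm, EuclideanSpace.norm_eq, Real.sqrt_eq_one, Fin.sum_univ_three]
  simpa using h

lemma stv_mem {e : ℝ} (he : e ^ 2 = 1) (w : ℂ) : stv e w ∈ Metric.sphere (0 : R3) 1 := by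
  apply mem_S2
  have hN := mul_inv_cancel₀ (Npos w)
  simp only [stv, Matrix.cons_val]
  generalize (1 + w.re * w.re + w.im * w.im)⁻¹ = n at hN
  linear_combination (4 * w.im ^ 2 * n ^ 2 + (2 * n - 1) ^ 2) * he + 4 * n * hN

noncomputable def st (e : ℝ) (he : e ^ 2 = 1) (w : ℂ) : S2 := ⟨stv e w, stv_mem he w⟩

lemma stv_deriv (e : ℝ) (w : ℂ) : ∃ L : ℂ →L[ℝ] R3, HasFDerivAt (stv e) L w ∧ ∀ v n,
    n = (1 + w.re * w.re + w.im * w.im)⁻¹ →
    L v 0 = 2 * v.re * n - 4 * w.re * n ^ 2 * (w.re * v.re + w.im * v.im) ∧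
    L v 1 = 2 * e * v.im * n - 4 * e * w.im * n ^ 2 * (w.re * v.re + w.im * v.im) ∧
    L v 2 = -4 * e * n ^ 2 * (w.re * v.re + w.im * v.im) := by
  have hr : HasFDerivAt (fun w : ℂ => w.re) Complex.reCLM w := Complex.reCLM.hasFDerivAt
  have hi : HasFDerivAt (fun w : ℂ => w.im) Complex.imCLM w := Complex.imCLM.hasFDerivAt
  have hN := ((hr.mul hr).const_add 1).add (hi.mul hi)
  have hn := (hasDerivAt_inv (Npos w)).comp_hasFDerivAt w hN
  have h0 := (hr.const_mul 2).mul hn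
  have h1 := (hi.const_mul (2 * e)).mul hn
  have h2 := ((hn.const_mul 2).sub_const 1).const_mul e
  have hd : DifferentiableAt ℝ (stv e) w := by
    rw [differentiableAt_piLp]
    intro i
    fin_cases i
    exacts [h0.differentiableAt, h1.differentiableAt, h2.differentiableAt]
  refine ⟨_, hd.hasFDerivAt, fun v n hn => ?_⟩
  have key : ∀ (i : Fin 3) (L : ℂ →L[ℝ] ℝ), HasFDerivAt (fun w => stv e w i) L w →
      fderiv ℝ (stv e) w v i = L v := by
    intro i L hL
    have h := ((EuclideanSpace.proj (𝕜 := ℝ) i).hasFDerivAt.comp w hd.hasFDerivAt).unique hL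
    exact congrArg (fun L : ℂ →L[ℝ] ℝ => L v) h
  rw [key 0 _ h0, key 1 _ h1, key 2 _ h2]
  simp only [← inv_pow]
  refine ⟨?_, ?_, ?_⟩ <;> simp [← hn] <;> ring

lemma st_SH (e : ℝ) (he : e ^ 2 = 1) : SH (st e he) where
  smooth := by
    change ContDiff ℝ ∞ (stv e)
    rw [contDiff_piLp]
    have hr : ContDiff ℝ ∞ (fun w : ℂ => w.re) := Complex.reCLM.contDiff
    have hi : ContDiff ℝ ∞ (fun w : ℂ => w.im) := Complex.imCLM.contDiff
    have hn : ContDiff ℝ ∞ (fun w : ℂ => (1 + w.re * w.re + w.im * w.im)⁻¹) :=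
      ((contDiff_const.add (hr.mul hr)).add (hi.mul hi)).inv Npos
    intro i
    fin_cases i
    exacts [(contDiff_const.mul hr).mul hn, (contDiff_const.mul hi).mul hn,
      contDiff_const.mul ((contDiff_const.mul hn).sub contDiff_const)]
  cr w v L hL := by
    obtain ⟨L', h1, h2⟩ := stv_deriv e w
    have : L = L' := hL.trans h1.fderiv
    subst this
    obtain ⟨a0, a1, a2⟩ := h2 v _ rfl
    obtain ⟨b0, b1, b2⟩ := h2 (Complex.I * v) _ rfl
    rw [a0, a1, a2, b0, b1, b2]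
    have hN := mul_inv_cancel₀ (Npos w)
    simp only [st, stv, Matrix.cons_val, Complex.mul_re, Complex.mul_im, Complex.I_re, Complex.I_im]
    generalize (1 + w.re * w.re + w.im * w.im)⁻¹ = n at hN
    refine ⟨?_, ?_, ?_⟩
    · rcases mul_self_eq_one_iff.1 ((sq e).symm.trans he) with rfl | rfl <;>
        linear_combination 4 * v.im * n * hN
    · linear_combination (-4 * e * v.re * n) * hN
    · ring

lemma one_sq : (1 : ℝ) ^ 2 = 1 := by norm_num
lemma neg_sq' : (-1 : ℝ) ^ 2 = 1 := by norm_num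

/-- Stereographic parametrisation of the two-sphere by the Riemann sphere. -/
noncomputable def sph (z : OnePoint ℂ) : S2 := z.elim (st (-1) neg_sq' 0) (st 1 one_sq)

lemma sph_chart (w : ℂ) :
    (if w = 0 then sph OnePoint.infty else sph (OnePoint.some w⁻¹)) = st (-1) neg_sq' w := by
  split_ifs with h
  · subst h; rfl
  · apply Subtype.ext
    change stv 1 w⁻¹ = stv (-1) w
    have h1 : w.re * w.re + w.im * w.im ≠ 0 := by
      rw [← Complex.normSq_apply]; exact (Complex.normSq_pos.2 h).ne'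
    have h2 := Npos w
    have h3 : 1 + w⁻¹.re * w⁻¹.re + w⁻¹.im * w⁻¹.im =
        (1 + w.re * w.re + w.im * w.im) / (w.re * w.re + w.im * w.im) := by
      simp only [Complex.inv_re, Complex.inv_im, Complex.normSq_apply]
      generalize hd : w.re * w.re + w.im * w.im = d at h1
      field_simp
      linear_combination (1 - d) * hd
    simp only [stv, h3, inv_div]
    simp only [Complex.inv_re, Complex.inv_im, Complex.normSq_apply]
    generalize hN : 1 + w.re * w.re + w.im * w.im = N at h2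
    generalize hd : w.re * w.re + w.im * w.im = d at h1
    ext i
    fin_cases i <;> simp <;> field_simp
    linear_combination (-2) * hd + 2 * hN

lemma sph_surj (x : S2) : ∃ z, sph z = x := by
  have hx := S2_norm x
  by_cases h : 1 + x.1 2 = 0
  · refine ⟨OnePoint.infty, Subtype.ext ?_⟩
    change stv (-1) 0 = x.1
    have h2 : x.1 2 = -1 := by linarith
    rw [h2] at hx
    have h0 : x.1 0 = 0 := by nlinarith [sq_nonneg (x.1 0), sq_nonneg (x.1 1)]
    have h1 : x.1 1 = 0 := by nlinarith [sq_nonneg (x.1 0), sq_nonneg (x.1 1)]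
    ext i
    fin_cases i <;> simp [stv, h0, h1, h2]
    norm_num
  · refine ⟨OnePoint.some ⟨x.1 0 / (1 + x.1 2), x.1 1 / (1 + x.1 2)⟩, Subtype.ext ?_⟩
    change stv 1 _ = x.1
    have h3 : 1 + x.1 0 / (1 + x.1 2) * (x.1 0 / (1 + x.1 2)) +
        x.1 1 / (1 + x.1 2) * (x.1 1 / (1 + x.1 2)) = 2 / (1 + x.1 2) := by
      field_simp
      linear_combination hx
    simp only [stv, h3, inv_div]
    ext i
    fin_cases i <;> simp <;> field_simp
    ring

lemma sphereA (l : ℝ) (y : S2) (t : Circle × Circle) :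
    JSphere I6 (JJ l) (fun z => mA l y t (sph z)) := by
  refine ⟨holoA l (st_SH 1 one_sq) y t, ?_⟩
  have h := holoA l (st_SH (-1) neg_sq') y t
  simp only [← sph_chart, apply_ite (mA l y t)] at h
  exact h

lemma sphereB (l : ℝ) (x : S2) (t : Circle × Circle) :
    JSphere I6 (JJ l) (fun z => mB x t (sph z)) := by
  refine ⟨holoB l (st_SH 1 one_sq) x t, ?_⟩
  have h := holoB l (st_SH (-1) neg_sq') x t
  simp only [← sph_chart, apply_ite (mB x t)] at h
  exact h

end Pool.Agent.MP_9dc49b_gt.H35
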