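import Pool.Agent.MP_9dc49b_gt.H35.Bridge

/-! The product form is symplectic and every member of the family is compatible with it. -/

open scoped Manifold ContDiff Topology

namespace Pool.Agent.MP_9dc49b_gt.H35

section
variable {E : Type} [NormedAddCommGroup E] [NormedSpace ℝ E] {H : Type} [TopologicalSpace H]
  {I : ModelWithCorners ℝ E H} {X : Type} [TopologicalSpace X] [ChartedSpace H X]
  [IsManifold I ∞ X] [I.Boundaryless]

lemma chart_left (x₀ : X) {y : E} (hy : y ∈ (extChartAt I x₀).target)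
    (v : TangentSpace I ((extChartAt I x₀).symm y)) :
    coordVec I x₀ (mfderiv I 𝓘(ℝ, E) (extChartAt I x₀) ((extChartAt I x₀).symm y) v) y = v := by
  have h := mfderivWithin_extChartAt_symm_comp_mfderiv_extChartAt (I := I) hy
  rw [I.range_eq_univ, mfderivWithin_univ] at h
  exact congrArg (fun L : TangentSpace I ((extChartAt I x₀).symm y) →L[ℝ]
    TangentSpace I ((extChartAt I x₀).symm y) => L v) h

lemma chart_right (x₀ : X) {y : E} (hy : y ∈ (extChartAt I x₀).target) (v : E) :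
    mfderiv I 𝓘(ℝ, E) (extChartAt I x₀) ((extChartAt I x₀).symm y) (coordVec I x₀ v y) = v := by
  have h := mfderiv_extChartAt_comp_mfderivWithin_extChartAt_symm (I := I) hy
  rw [I.range_eq_univ, mfderivWithin_univ] at h
  exact congrArg (fun L : E →L[ℝ] E => L v) h

noncomputable def cv (I : ModelWithCorners ℝ E H) (x₀ : X) (y : E) :
    E →ₗ[ℝ] TangentSpace I ((extChartAt I x₀).symm y) :=
  (mfderiv 𝓘(ℝ, E) I (extChartAt I x₀).symm y).toLinearMap

lemma smooth_end [FiniteDimensional ℝ E]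
    (σ : ∀ x : X, TangentSpace I x →ₗ[ℝ] TangentSpace I x →ₗ[ℝ] ℝ)
    (J : ∀ x : X, TangentSpace I x →ₗ[ℝ] TangentSpace I x) (hσ : IsSymplectic I σ) (x₀ : X) (v : E)
    (hg : ∀ w, ContDiffOn ℝ ∞ (fun y => σ ((extChartAt I x₀).symm y)
      (J _ (coordVec I x₀ v y)) (coordVec I x₀ w y)) (extChartAt I x₀).target) :
    ContDiffOn ℝ ∞ (coordEnd I J x₀ v) (extChartAt I x₀).target := by
  let Bl : E → E →ₗ[ℝ] E →L[ℝ] ℝ := fun y =>
    (LinearMap.toContinuousLinearMap : (E →ₗ[ℝ] ℝ) ≃ₗ[ℝ] E →L[ℝ] ℝ).toLinearMap ∘ₗ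
      (σ ((extChartAt I x₀).symm y)).compl₁₂ (cv I x₀ y) (cv I x₀ y)
  let B : E → E →L[ℝ] E →L[ℝ] ℝ := fun y => LinearMap.toContinuousLinearMap (Bl y)
  let G : E → E →L[ℝ] ℝ := fun y => LinearMap.toContinuousLinearMap
    ((σ ((extChartAt I x₀).symm y) (J _ (coordVec I x₀ v y))) ∘ₗ cv I x₀ y)
  have hB : ContDiffOn ℝ ∞ B (extChartAt I x₀).target := by
    rw [contDiffOn_clm_apply]
    intro a
    rw [contDiffOn_clm_apply]
    intro b
    exact hσ.smooth x₀ a b
  have hG : ContDiffOn ℝ ∞ G (extChartAt I x₀).target := by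
    rw [contDiffOn_clm_apply]
    intro b
    exact hg b
  have hinv : ∀ y ∈ (extChartAt I x₀).target, ∃ e : E ≃L[ℝ] (E →L[ℝ] ℝ), (e : E →L[ℝ] _) = B y := by
    intro y hy
    have hinj : Function.Injective (Bl y) := by
      rw [injective_iff_map_eq_zero]
      intro a ha
      have h1 : coordVec I x₀ a y = 0 := by
        apply hσ.nondeg
        intro w
        rw [← chart_left x₀ hy w]
        exact congrArg (fun L : E →L[ℝ] ℝ => L _) ha
      rw [← chart_right x₀ hy a, h1]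
      exact map_zero _
    have hdim : Module.finrank ℝ E = Module.finrank ℝ (E →L[ℝ] ℝ) := by
      rw [← (LinearMap.toContinuousLinearMap : (E →ₗ[ℝ] ℝ) ≃ₗ[ℝ] E →L[ℝ] ℝ).finrank_eq]
      exact Subspace.dual_finrank_eq.symm
    exact ⟨(LinearMap.linearEquivOfInjective (Bl y) hinj hdim).toContinuousLinearEquiv, rfl⟩
  have hE : CompleteSpace E := FiniteDimensional.complete ℝ E
  have h1 : ContDiffOn ℝ ∞ (fun y => (B y).inverse) (extChartAt I x₀).target := by
    intro y hy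
    obtain ⟨e, he⟩ := hinv y hy
    have h := contDiffAt_map_inverse (n := ∞) e
    rw [he] at h
    exact h.comp_contDiffWithinAt y (hB y hy)
  refine (h1.clm_apply hG).congr fun y hy => ?_
  obtain ⟨e, he⟩ := hinv y hy
  have h2 : G y = B y (coordEnd I J x₀ v y) := by
    ext w
    change σ _ (J _ (coordVec I x₀ v y)) (coordVec I x₀ w y) =
      σ _ (coordVec I x₀ (coordEnd I J x₀ v y) y) (coordVec I x₀ w y)
    rw [coordEnd, chart_left x₀ hy]
  rw [h2, ← he]
  simp

end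

lemma chart_smooth (x₀ : X6) {y : E6} (hy : y ∈ (extChartAt I6 x₀).target) :
    ContMDiffAt 𝓘(ℝ, E6) I6 ∞ (extChartAt I6 x₀).symm y :=
  (contMDiffOn_extChartAt_symm x₀ y hy).contMDiffAt ((isOpen_extChartAt_target x₀).mem_nhds hy)

noncomputable def FF (x₀ : X6) (y : E6) : V10 := emb ((extChartAt I6 x₀).symm y)

lemma FF_smooth (x₀ : X6) {y : E6} (hy : y ∈ (extChartAt I6 x₀).target) :
    ContDiffAt ℝ ∞ (FF x₀) y := contDiffAt_emb (chart_smooth x₀ hy)

lemma FF_smooth' (x₀ : X6) {y : E6} (hy : y ∈ (extChartAt I6 x₀).target) (v : E6) :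
    ContDiffAt ℝ ∞ (fun y => fderiv ℝ (FF x₀) y v) y :=
  ((FF_smooth x₀ hy).fderiv_right (m := ∞) (by simp)).clm_apply contDiffAt_const

lemma D_coordVec (x₀ : X6) {y : E6} (hy : y ∈ (extChartAt I6 x₀).target) (v : E6) :
    D ((extChartAt I6 x₀).symm y) (coordVec I6 x₀ v y) = red (FF x₀ y) (fderiv ℝ (FF x₀) y v) :=
  D_mfderiv ((chart_smooth x₀ hy).mdifferentiableAt (by simp)) v

lemma coeff_sig (x₀ : X6) (v w : E6) {y : E6} (hy : y ∈ (extChartAt I6 x₀).target) :
    coeff I6 sig x₀ v w y = Q (FF x₀ y) (fderiv ℝ (FF x₀) y v) (fderiv ℝ (FF x₀) y w) := by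
  rw [coeff, sig_apply, D_coordVec x₀ hy, D_coordVec x₀ hy]
  rfl

lemma D_ne (p : X6) {v : E6} (hv : v ≠ 0) : D p v ≠ 0 := fun h =>
  hv ((injective_iff_map_eq_zero _).1 (D_inj p) v h)

theorem sig_symplectic : IsSymplectic I6 sig where
  smooth x₀ v w := by
    refine ContDiffOn.congr (fun y hy => ?_) (fun y hy => coeff_sig x₀ v w hy)
    exact (contDiffAt_Q (FF_smooth x₀ hy) (FF_smooth' x₀ hy v) (FF_smooth' x₀ hy w)).contDiffWithinAt
  alt x v := by
    rw [sig_apply]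
    linarith [om_anti (emb x) (D x v) (D x v)]
  nondeg x v h := by
    by_contra hv
    have h1 := om_K_pos 0 (on_emb x) (tan_D x v) (D_ne x hv)
    rw [← D_JJ, ← sig_apply, h] at h1
    exact lt_irrefl _ h1
  closed x₀ y hy u v w := by
    have e : ∀ v w : E6, fderiv ℝ (coeff I6 sig x₀ v w) y =
        fderiv ℝ (fun y => Q (FF x₀ y) (fderiv ℝ (FF x₀) y v) (fderiv ℝ (FF x₀) y w)) y := by
      intro v w
      apply Filter.EventuallyEq.fderiv_eq
      filter_upwards [(isOpen_extChartAt_target x₀).mem_nhds hy] with z hz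
      exact coeff_sig x₀ v w hz
    rw [e, e, e]
    refine closed_Q (FF_smooth x₀ hy) (on_emb _) (fun v => ?_) u v w
    have h := fderiv_emb ((chart_smooth x₀ hy).mdifferentiableAt (by simp)) v
    change fderiv ℝ (FF x₀) y v = _ at h
    rw [h]
    exact tan10_emb _ _

theorem JJ_compatible (l : ℝ) : Compatible I6 sig (JJ l) where
  smooth x₀ v := by
    refine smooth_end sig (JJ l) sig_symplectic x₀ v fun w => ?_
    refine ContDiffOn.congr (fun y hy => (contDiffAt_QK l (FF_smooth x₀ hy) (FF_smooth' x₀ hy v)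
      (FF_smooth' x₀ hy w)).contDiffWithinAt) (fun y hy => ?_)
    rw [sig_apply, D_JJ, D_coordVec x₀ hy, D_coordVec x₀ hy]
    rfl
  sq x v := by
    apply D_inj x
    rw [D_JJ, D_JJ, K_K l (on_emb x) (tan_D x v)]
    exact (map_neg (D x) v).symm
  inv x v w := by
    rw [sig_apply, sig_apply, D_JJ, D_JJ, om_K_K l (on_emb x) (tan_D x v) (tan_D x w)]
  pos x v hv := by
    rw [sig_apply, D_JJ]
    exact om_K_pos l (on_emb x) (tan_D x v) (D_ne x hv)

lemma holo_iff {l : ℝ} {f : ℂ → X6} (hf : ContMDiff 𝓘(ℝ, ℂ) I6 ∞ f) :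
    Holo I6 (JJ l) f ↔ ∀ w v : ℂ,
      red (emb (f w)) (fderiv ℝ (fun w => emb (f w)) w (Complex.I * v)) =
        K l (emb (f w)) (red (emb (f w)) (fderiv ℝ (fun w => emb (f w)) w v)) := by
  have hd : ∀ w, MDifferentiableAt 𝓘(ℝ, ℂ) I6 f w := fun w => (hf w).mdifferentiableAt (by simp)
  constructor
  · intro h w v
    rw [← D_mfderiv (hd w), ← D_mfderiv (hd w), ← D_JJ, ← h.cr w v]
  · intro h
    refine ⟨hf, fun w v => D_inj (f w) ?_⟩
    rw [D_JJ, D_mfderiv (hd w), D_mfderiv (hd w), h w v]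

end Pool.Agent.MP_9dc49b_gt.H35
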